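import Mathlib

/-! The root number of the curve `x ^ 3 + y ^ 3 = n`. -/

set_option autoImplicit false

namespace Pool.Agent.Lib.MP_696deb_nt.CL

/-- The root number is one. -/
def Wp (n : ℕ) : Prop :=
  Even (n.primeFactors.filter fun p => p % 3 = 2 ∧ n.factorization p % 3 ≠ 0).card ↔
    (n.factorization 3 % 3 = 1 ∨ n.factorization 3 % 3 = 0 ∧
      (n / 3 ^ n.factorization 3 % 9 = 1 ∨ n / 3 ^ n.factorization 3 % 9 = 8))

end Pool.Agent.Lib.MP_696deb_nt.CL
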