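import Pool.Agent.Lib.MP_696deb_nt.CL.F1

/-! The supplement to cubic reciprocity. -/

set_option autoImplicit false

open scoped Classical Real
open Complex Finset

namespace Pool.Agent.Lib.MP_696deb_nt.CL

variable {p : ℕ} [Fact p.Prime] {z : O} {ρ : O →+* ZMod p} {χ : MulChar (ZMod p) O}

/-- The quotient `(op k - 1) / th`. -/
def f2bNu (k : ZMod 3) : O := if k = 0 then 0 else if k = 1 then 1 + om else om

theorem f2b_op : ∀ k, op k = 1 + th * f2bNu k := by decide

theorem f2b_nu : ∀ k : ZMod 3, ∃ v : O, f2bNu k = -(k.val : O) + th * v := by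
  intro k
  fin_cases k
  exacts [⟨0, by decide⟩, ⟨-om, by decide⟩, ⟨-om, by decide⟩]

theorem Qc.f2b_norm (h : Qc p z ρ χ) :
    ∃ v : O, 1 - p * z = th ^ 3 * (-((z.im / 3 : ℤ) : O) + th * v) := by
  obtain ⟨a, ha⟩ : ∃ a, z.re = 1 + 3 * a := ⟨z.re / 3, by have := h.prim.1; omega⟩
  obtain ⟨b, hb⟩ : ∃ b, z.im = 3 * b := ⟨z.im / 3, by have := h.prim.2; omega⟩
  have hp := h.norm
  rw [nm, ha, hb] at hp
  rw [show z.im / 3 = b by omega, show th ^ 3 = ⟨-3, -6⟩ by decide, ← Int.cast_natCast, ← hp]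
  obtain ⟨s, hs⟩ : ∃ s, s = a ^ 2 - a * b + b ^ 2 := ⟨_, rfl⟩
  refine ⟨⟨-(a + s + 2 * a ^ 2 - a * b + 3 * a * s), -b * (2 * a - b + 3 * s) - b⟩, ?_⟩
  ext <;> simp [th, ha, hb, hs, -Int.cast_add, -Int.cast_sub, QuadraticAlgebra.re_one,
    QuadraticAlgebra.im_one] <;> ring

theorem f2b_main (h : Qc p z ρ χ) {R F : Type} [CommRing R] [IsDomain R] [CommRing F]
    [CharP F 3] (σ : O →+* R) (hσ : Function.Injective σ) {ψ : AddChar (ZMod p) R}
    (hψ : ψ.IsPrimitive) (τ : R →+* F) (hτ : τ (σ th) = 0) :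
    χ 3 = op ((z.im / 3 : ℤ) : ZMod 3) := by
  obtain ⟨d, d0, hd⟩ : ∃ d : ZMod p → ZMod 3, d 0 = 0 ∧ ∀ x, x ≠ 0 → χ x = op (d x) := by
    choose! d hd using fun x hx => cube_eq_one (h.cube x hx)
    exact ⟨Function.update d 0 0, by simp, fun x hx => by rw [Function.update_of_ne hx, hd x hx]⟩
  have h3 := h.three_ne
  have s0 : ∑ x, ψ x = 0 := AddChar.sum_eq_zero_of_ne_one (by simpa using hψ one_ne_zero)
  obtain ⟨y, hy⟩ : ∃ y, y = ∑ x, σ (f2bNu (d x)) * ψ x := ⟨_, rfl⟩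
  have g1 : gaussSum (χ.ringHomComp σ) ψ = σ th * y - 1 := by
    have e : ∀ x, χ.ringHomComp σ x * ψ x =
        ψ x + σ th * (σ (f2bNu (d x)) * ψ x) - if x = 0 then 1 else 0 := fun x => by
      by_cases hx : x = 0
      · simp [hx, d0, f2bNu, χ.map_zero]
      · rw [MulChar.ringHomComp_apply, hd x hx, f2b_op, if_neg hx, map_add, map_mul, map_one]
        ring
    simp only [gaussSum, e, sum_sub_distrib, sum_add_distrib, s0, ← mul_sum, ← hy]
    simp
  have o3 : orderOf (χ.ringHomComp σ) = 3 :=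
    have := Fact.mk Nat.prime_three
    orderOf_eq_prime (by rw [MulChar.ringHomComp_pow, h.pow_three, MulChar.ringHomComp_one])
      ((MulChar.ringHomComp_ne_one_iff hσ).2 h.ne_one)
  have g3 := gaussSum_pow_eq_prod_jacobiSum (χ := χ.ringHomComp σ) (by omega) hψ
  rw [o3, g1, MulChar.ringHomComp_apply, h.neg_one, map_one, one_mul, ZMod.card,
    show Ico 1 (3 - 1) = {1} from rfl, prod_singleton, pow_one, jacobiSum_ringHomComp, h.jac] at g3
  obtain ⟨v, hv⟩ := h.f2b_norm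
  have t2 : σ th ^ 2 = -3 := by rw [← map_pow, show th ^ 2 = -3 by decide, map_neg, map_ofNat]
  have t0 : σ th ≠ 0 := (map_ne_zero_iff σ hσ).2 (by decide)
  have k1 : y ^ 3 - y + σ th * y ^ 2 = -((z.im / 3 : ℤ) : R) + σ th * σ v := by
    have := congrArg σ hv
    simp only [map_sub, map_mul, map_one, map_natCast, map_pow, map_add, map_neg, map_intCast]
      at this g3
    refine mul_left_cancel₀ (pow_ne_zero 3 t0) ?_
    linear_combination g3 + this + (σ th ^ 2 * y ^ 2 - σ th * y) * t2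
  have : Nontrivial F := CharP.nontrivial_of_char_ne_one (v := 3) (by norm_num)
  have := Fact.mk Nat.prime_three
  let ι : ZMod 3 →+* F := ZMod.castHom dvd_rfl F
  have k2 : τ y = -∑ x, ι (d x) * τ (ψ x) := by
    rw [hy, map_sum, ← sum_neg_distrib]
    refine sum_congr rfl fun x _ => ?_
    obtain ⟨u, hu⟩ := f2b_nu (d x)
    rw [← ZMod.natCast_zmod_val (d x), map_natCast, ZMod.natCast_zmod_val]
    simp only [hu, hτ, map_mul, map_add, map_neg, map_natCast, zero_mul, add_zero, neg_mul]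
  have k3 : τ y ^ 3 = -∑ x, ι (d x) * τ (ψ (3 * x)) := by
    rw [k2, Odd.neg_pow (by decide), sum_pow_char]
    refine congrArg _ (sum_congr rfl fun x _ => ?_)
    rw [mul_pow, ← map_pow, ← map_pow, ZMod.pow_card, ← AddChar.map_nsmul_eq_pow, nsmul_eq_mul,
      Nat.cast_ofNat]
  have k4 : τ y = -∑ x, ι (d (3 * x)) * τ (ψ (3 * x)) := by
    rw [k2, ← Equiv.sum_comp (Equiv.mulLeft₀ 3 h3)]
    rfl
  have k5 : ∑ x, τ (ψ (3 * x)) = 0 := by
    rw [← map_sum, ← map_zero τ, ← s0, ← Equiv.sum_comp (Equiv.mulLeft₀ 3 h3) ψ]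
    rfl
  have k6 : ∀ x, ι (d (3 * x)) * τ (ψ (3 * x)) = ι (d x) * τ (ψ (3 * x)) +
      ι (d 3) * τ (ψ (3 * x)) - if x = 0 then ι (d 3) else 0 := fun x => by
    by_cases hx : x = 0
    · simp [hx, d0]
    · rw [op_inj (d (3 * x)) (d 3 + d x) (by
        rw [op_add, ← hd _ (mul_ne_zero h3 hx), ← hd _ h3, ← hd _ hx, map_mul]), if_neg hx, map_add]
      ring
  simp only [k6, sum_sub_distrib, sum_add_distrib, ← mul_sum, k5, sum_ite_eq', mem_univ,
    if_true] at k4
  have k7 := congrArg τ k1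
  simp only [map_sub, map_mul, map_pow, map_add, map_neg, map_intCast, hτ] at k7
  rw [hd 3 h3]
  refine congrArg op (ι.injective ?_)
  rw [map_intCast]
  linear_combination k3 - k4 - k7

theorem Qc.three (h : Qc p z ρ χ) : χ 3 = op ((z.im / 3 : ℤ) : ZMod 3) := by
  have hp : p.Prime := Fact.out
  let σ : O →+* integralClosure ℤ ℂ := toC.codRestrict (integralClosure ℤ ℂ) fun α =>
    (Algebra.IsIntegral.isIntegral (R := ℤ) α).map toC.toIntAlgHom
  have hζ := Complex.isPrimitiveRoot_exp p hp.ne_zero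
  have hζ' : IsPrimitiveRoot (⟨_, hζ.isIntegral hp.pos⟩ : integralClosure ℤ ℂ) p :=
    IsPrimitiveRoot.coe_submonoidClass_iff.1 hζ
  have n3 : Nontrivial (integralClosure ℤ ℂ ⧸ Ideal.span {σ th}) := by
    refine Ideal.Quotient.nontrivial_iff.2 fun e => ?_
    obtain ⟨u, hu⟩ := ((Ideal.span_singleton_eq_top.1 e).pow 2).exists_right_inv
    rw [← map_pow, show th ^ 2 = -3 by decide, map_neg, map_ofNat] at hu
    have e1 : (u : ℂ) = algebraMap ℚ ℂ (-1 / 3) := by
      have := congrArg Subtype.val hu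
      simp only [MulMemClass.coe_mul, NegMemClass.coe_neg, OneMemClass.coe_one] at this
      rw [show ((3 : integralClosure ℤ ℂ) : ℂ) = 3 from rfl] at this
      simp only [map_div₀, map_neg, map_one, map_ofNat]
      linear_combination (-1 / 3) * this
    have e2 : IsIntegral ℤ (algebraMap ℚ ℂ (-1 / 3)) := e1 ▸ u.2
    obtain ⟨m, hm⟩ := IsIntegrallyClosed.isIntegral_iff.1
      ((isIntegral_algebraMap_iff (algebraMap ℚ ℂ).injective).1 e2)
    have e3 : (m : ℚ) * 3 = -1 := by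
      rw [← eq_intCast (algebraMap ℤ ℚ), hm]
      norm_num
    have e4 : m * 3 = -1 := by exact_mod_cast e3
    omega
  have t0 : Ideal.Quotient.mk (Ideal.span {σ th}) (σ th) = 0 :=
    Ideal.Quotient.eq_zero_iff_mem.2 (Ideal.mem_span_singleton_self _)
  have : CharP (integralClosure ℤ ℂ ⧸ Ideal.span {σ th}) 3 :=
    (CharP.charP_iff_prime_eq_zero Nat.prime_three).2 (by
      have := congrArg (fun x => Ideal.Quotient.mk (Ideal.span {σ th}) (σ x))
        (show (3 : O) = -th ^ 2 by decide)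
      simpa only [map_ofNat, map_neg, map_pow, t0, zero_pow two_ne_zero, neg_zero, Nat.cast_ofNat]
        using this)
  have : NeZero p := ⟨hp.ne_zero⟩
  exact f2b_main h σ (fun a b e => toC_inj (congrArg Subtype.val e))
    (AddChar.zmodChar_primitive_of_primitive_root p hζ') _ t0

end Pool.Agent.Lib.MP_696deb_nt.CL
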