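import Pool.Agent.Lib.MP_696deb_nt.CL.F0

/-! The cubic character modulo a rational prime. -/

set_option autoImplicit false

open scoped Classical Real
open Complex Finset

namespace Pool.Agent.Lib.MP_696deb_nt.CL

open QuadraticAlgebra

theorem f4_op_nat (n : ℕ) : op (n : ZMod 3) = om ^ n := by
  induction n with
  | zero => decide
  | succ n ih =>
    rw [Nat.cast_succ, op_add, ih, pow_succ]
    congr 1

theorem f4_cancel {q : ℕ} (hq : q.Prime) {n : ℤ} (hn : ¬ (q : ℤ) ∣ n) {z : O}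
    (h : (q : O) ∣ z * n) : (q : O) ∣ z := by
  have hp := Nat.prime_iff_prime_int.1 hq
  rw [nat_dvd] at h ⊢
  simp only [re_mul, im_mul, re_intCast, im_intCast, mul_zero, add_zero, zero_add] at h
  exact ⟨(hp.dvd_or_dvd h.1).resolve_right hn, (hp.dvd_or_dvd h.2).resolve_right hn⟩

theorem f4_star {q : ℕ} {z : O} (h : (q : O) ∣ z) : (q : O) ∣ star z := by
  obtain ⟨c, rfl⟩ := h
  exact ⟨star c, by rw [star_mul', star_natCast]⟩

theorem f4_three {q : ℕ} (hq : q.Prime) (h3 : q ≠ 3) : ¬ (q : ℤ) ∣ 3 := fun h =>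
  h3 ((Nat.prime_dvd_prime_iff_eq hq Nat.prime_three).1 (by exact_mod_cast h))

theorem f4_one {q : ℕ} (hq : q.Prime) : ¬ (q : ℤ) ∣ nm om := fun h =>
  hq.not_dvd_one (by exact_mod_cast (show (q : ℤ) ∣ 1 from h))

theorem f4_frob {q : ℕ} (hq : q.Prime) (α : O) :
    (q : O) ∣ α ^ q - (α.re + α.im * om ^ q) := by
  have := Fact.mk hq
  have h1 : ∀ a : ℤ, (q : O) ∣ (a : O) ^ q - a := fun a => by
    have : (q : ℤ) ∣ a ^ q - a := by
      rw [← ZMod.intCast_zmod_eq_zero_iff_dvd]
      simp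
    simpa using map_dvd (Int.castRingHom O) this
  have e : α = α.re + α.im * om := by ext <;> simp [om]
  obtain ⟨r, hr⟩ := exists_add_pow_prime_eq hq (α.re : O) (α.im * om)
  rw [← e] at hr
  have : α ^ q - (α.re + α.im * om ^ q) = ((α.re : O) ^ q - α.re) +
      ((α.im : O) ^ q - α.im) * om ^ q + q * (α.re * (α.im * om) * r) := by
    rw [hr, mul_pow]
    ring
  rw [this]
  exact dvd_add (dvd_add (h1 _) ((h1 _).mul_right _)) (dvd_mul_right _ _)

theorem f4_ex {q : ℕ} (hq : q.Prime) (h3 : q ≠ 3) {w : O} (h : (q : O) ∣ w ^ 3 - star w ^ 3) :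
    ∃ k, (q : O) ∣ w - op k * star w := by
  have hp := Nat.prime_iff_prime_int.1 hq
  have h1 := (nat_dvd.1 h).1
  have e : (w ^ 3 - star w ^ 3).re = 3 * (w.re * (w.im * (w.re - w.im))) := by
    simp [pow_succ]
    ring
  rw [e] at h1
  have i0 : op 0 = ⟨1, 0⟩ := by decide
  have i1 : op 1 = ⟨0, 1⟩ := by decide
  have i2 : op 2 = ⟨-1, -1⟩ := by decide
  rcases hp.dvd_or_dvd ((hp.dvd_or_dvd h1).resolve_left (f4_three hq h3)) with h4 | h4
  · refine ⟨2, nat_dvd.2 ⟨?_, ?_⟩⟩ <;> simp [i2, h4, dvd_add h4 h4]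
  rcases hp.dvd_or_dvd h4 with h5 | h5
  · refine ⟨0, nat_dvd.2 ⟨?_, ?_⟩⟩ <;> simp [i0, h5, dvd_add h5 h5]
  · refine ⟨1, nat_dvd.2 ⟨?_, ?_⟩⟩ <;> simp [i1, h5, dvd_sub_comm.1 h5]

theorem f4_uniq {q : ℕ} (hq : q.Prime) (h3 : q ≠ 3) {w : O} (hw : ¬ (q : ℤ) ∣ nm w)
    {k l : ZMod 3} (hk : (q : O) ∣ w - op k * star w) (hl : (q : O) ∣ w - op l * star w) :
    k = l := by
  have h1 : (q : O) ∣ (op k - op l) * (nm w : ℤ) := by
    have := (dvd_sub hl hk).mul_right w
    rw [← mul_star_self]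
    convert this using 1
    ring
  have h2 := f4_cancel hq hw h1
  by_contra hne
  have : ∀ a b : ZMod 3, a ≠ b → (op a - op b) * star (op a - op b) = 3 := by decide
  have h4 : (q : O) ∣ 3 := this k l hne ▸ h2.mul_right _
  exact f4_three hq h3 (nat_dvd.1 h4).1

theorem f4_ne {q e : ℕ} (hq : q.Prime) (h3 : q ≠ 3) (he : 0 < e) (he' : e + 2 < q) :
    ∃ α : O, ¬ (q : ℤ) ∣ nm α ∧ ¬ (q : O) ∣ α ^ e - star α ^ e := by
  have := Fact.mk hq
  by_contra hc
  push Not at hc
  obtain ⟨w, hw⟩ : ∃ w : AlgebraicClosure (ZMod q), w * w = -1 - w := by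
    obtain ⟨w, hw⟩ := IsAlgClosed.exists_root
      (Polynomial.X ^ 2 + Polynomial.X + 1 : Polynomial (AlgebraicClosure (ZMod q))) (by
        rw [show (Polynomial.X ^ 2 + Polynomial.X + 1 :
          Polynomial (AlgebraicClosure (ZMod q))).degree = 2 by compute_degree!]
        decide)
    simp only [Polynomial.IsRoot.def, Polynomial.eval_add, Polynomial.eval_pow, Polynomial.eval_X,
      Polynomial.eval_one] at hw
    exact ⟨w, by linear_combination hw⟩
  let ρ : O →ₐ[ℤ] AlgebraicClosure (ZMod q) :=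
    QuadraticAlgebra.lift ⟨w, by rw [hw]; simp [sub_eq_add_neg]⟩
  have hρ : ∀ z : O, ρ z = z.re + z.im * w := fun z => by simp [ρ, QuadraticAlgebra.lift]
  have h0 : ∀ z : O, (q : O) ∣ z → ρ z = 0 := by
    rintro _ ⟨c, rfl⟩
    simp
  have hP := Polynomial.eq_zero_of_natDegree_lt_card_of_eval_eq_zero
    (((Polynomial.X + Polynomial.C w) ^ e - (Polynomial.X + Polynomial.C (-1 - w)) ^ e) *
      ((Polynomial.X + Polynomial.C w) * (Polynomial.X + Polynomial.C (-1 - w))))
    (algebraMap (ZMod q) (AlgebraicClosure (ZMod q))).injective (fun x => ?_) ?_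
  · rcases mul_eq_zero.1 hP with h | h
    · have := congrArg (Polynomial.eval (-w)) h
      simp only [Polynomial.eval_sub, Polynomial.eval_pow, Polynomial.eval_add, Polynomial.eval_X,
        Polynomial.eval_C, neg_add_cancel, zero_pow he.ne', zero_sub, Polynomial.eval_zero,
        neg_eq_zero, pow_eq_zero_iff he.ne'] at this
      refine f4_three hq h3 ((CharP.intCast_eq_zero_iff (AlgebraicClosure (ZMod q)) q 3).1 ?_)
      push_cast
      linear_combination 4 * hw + (2 * w + 1) * this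
    · exact mul_ne_zero (Polynomial.X_add_C_ne_zero _) (Polynomial.X_add_C_ne_zero _) h
  · obtain ⟨a, rfl⟩ := ZMod.intCast_surjective x
    simp only [Polynomial.eval_mul, Polynomial.eval_sub, Polynomial.eval_pow, Polynomial.eval_add,
      Polynomial.eval_X, Polynomial.eval_C, map_intCast]
    by_cases h : (q : ℤ) ∣ nm ⟨a, 1⟩
    · refine mul_eq_zero_of_right _ ?_
      have := (CharP.intCast_eq_zero_iff (AlgebraicClosure (ZMod q)) q _).2 h
      simp only [nm] at this
      push_cast at this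
      linear_combination this - hw
    · refine mul_eq_zero_of_left ?_ _
      have := h0 _ (hc _ h)
      rw [map_sub, map_pow, map_pow, hρ, hρ] at this
      convert this using 3
      · simp
      · simp
        ring
  · rw [ZMod.card]
    refine lt_of_le_of_lt ?_ he'
    refine Polynomial.natDegree_mul_le.trans (add_le_add ?_ ?_)
    · refine (Polynomial.natDegree_sub_le _ _).trans (max_le ?_ ?_)
      · rw [Polynomial.natDegree_pow, Polynomial.natDegree_X_add_C, mul_one]
      · rw [Polynomial.natDegree_pow, Polynomial.natDegree_X_add_C, mul_one]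
    · refine Polynomial.natDegree_mul_le.trans ?_
      rw [Polynomial.natDegree_X_add_C, Polynomial.natDegree_X_add_C]

theorem f4_core {q e : ℕ} (hq : q.Prime) (h3 : q ≠ 3) (hp2 : q = 2 ∨ Even e)
    (hF : ∀ α : O, ¬ (q : ℤ) ∣ nm α → (q : O) ∣ (α ^ e) ^ 3 - star (α ^ e) ^ 3) :
    ∃ Y : O → O, (∀ α β, Y (α * β) = Y α * Y β) ∧ Per q Y ∧ (∀ α, (q : ℤ) ∣ nm α → Y α = 0) ∧
      (∀ α, ¬ (q : ℤ) ∣ nm α → Y α ^ 3 = 1) ∧ (∀ α, Y (star α) = star (Y α)) ∧
      (∀ n : ℤ, ¬ (q : ℤ) ∣ n → Y n = 1) ∧ Y om = op (-e) ∧ Y th = 1 ∧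
      ∀ α, ¬ (q : ℤ) ∣ nm α → (q : O) ∣ α ^ e - Y α * star α ^ e := by
  have hp := Nat.prime_iff_prime_int.1 hq
  choose! κ hκ using fun α h => f4_ex hq h3 (hF α h)
  simp only [star_pow] at hκ
  have hn : ∀ (α : O) (m : ℕ), nm (α ^ m) = nm α ^ m := fun α m => by
    rw [nm_eq, nm_eq, map_pow]
  have hu : ∀ (α : O) k, ¬ (q : ℤ) ∣ nm α → (q : O) ∣ α ^ e - op k * star α ^ e → κ α = k := by
    intro α k h hk
    refine f4_uniq hq h3 (w := α ^ e) (fun h' => h ?_) (by simpa using hκ α h) (by simpa using hk)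
    rw [hn] at h'
    exact hp.dvd_of_dvd_pow h'
  refine ⟨fun α => if (q : ℤ) ∣ nm α then 0 else op (κ α), fun α β => ?_, fun α γ => ?_,
    fun α h => if_pos h, fun α h => ?_, fun α => ?_, fun n h => ?_, ?_, ?_, fun α h => ?_⟩
  · by_cases ha : (q : ℤ) ∣ nm α
    · simp [nm_mul, ha, ha.mul_right]
    by_cases hb : (q : ℤ) ∣ nm β
    · simp [nm_mul, hb, hb.mul_left]
    have hab : ¬ (q : ℤ) ∣ nm (α * β) := fun h => by
      rw [nm_mul] at h
      exact (hp.dvd_or_dvd h).elim ha hb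
    simp only [ha, hb, hab, if_false]
    rw [← op_add, hu _ (κ α + κ β) hab]
    have := dvd_add ((hκ α ha).mul_right (β ^ e)) ((hκ β hb).mul_left (op (κ α) * star α ^ e))
    convert this using 1
    rw [op_add, star_mul', mul_pow, mul_pow]
    ring
  · have h1 : (q : ℤ) ∣ nm (α + q * γ) - nm α :=
      ⟨2 * (α.re * γ.re + α.im * γ.im) - α.re * γ.im - α.im * γ.re + q * nm γ, by
        simp [nm]
        ring⟩
    have h2 : (q : ℤ) ∣ nm (α + q * γ) ↔ (q : ℤ) ∣ nm α := by
      simpa using (dvd_iff_dvd_of_dvd_sub h1)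
    by_cases ha : (q : ℤ) ∣ nm α
    · simp only [h2, ha, if_true]
    have h4 : (q : O) ∣ (α + q * γ) ^ e - α ^ e :=
      dvd_trans (by simp) (sub_dvd_pow_sub_pow _ _ e)
    have h5 := f4_star h4
    rw [star_sub, star_pow, star_pow] at h5
    simp only [h2, ha, if_false]
    rw [hu _ (κ α) (mt h2.1 ha)]
    have := dvd_add (dvd_sub h4 (h5.mul_left (op (κ α)))) (hκ α ha)
    convert this using 1
    ring
  · simp only [h, if_false, op_cube]
  · by_cases ha : (q : ℤ) ∣ nm α
    · simp [nm_star, ha]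
    have hb : ¬ (q : ℤ) ∣ nm (star α) := by rwa [nm_star]
    simp only [ha, hb, if_false]
    rw [← op_neg, hu _ (-κ α) hb]
    have := f4_star (hκ α ha)
    rwa [star_sub, star_mul', star_pow, star_pow, ← op_neg] at this
  · have hb : ¬ (q : ℤ) ∣ nm (n : O) := fun h' => by
      rw [nm_int] at h'
      exact h (hp.dvd_of_dvd_pow h')
    simp only [hb, if_false]
    rw [hu _ 0 hb (by simp [op_zero]), op_zero]
  · simp only [f4_one hq, if_false]
    rw [hu _ (-e) (f4_one hq)]
    rw [op_neg, f4_op_nat, star_pow, ← mul_pow, show star om * star om = om by decide]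
    simp
  · have hb : ¬ (q : ℤ) ∣ nm th := f4_three hq h3
    simp only [hb, if_false]
    rw [hu _ 0 hb, op_zero]
    rw [op_zero, one_mul, show star th = -th by decide]
    rcases hp2 with rfl | h
    · exact dvd_trans ⟨th, by decide⟩ (sub_dvd_pow_sub_pow _ _ e)
    · simp [h.neg_pow]
  · simp only [h, if_false, hκ α h]

theorem exists_X {q : ℕ} (hq : q.Prime) (h3 : q ≠ 3) : ∃ X, IsX q X := by
  have hodd := hq.eq_two_or_odd
  have h1 := hq.two_le
  have h0 : q % 3 ≠ 0 := fun h =>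
    h3 ((Nat.prime_dvd_prime_iff_eq Nat.prime_three hq).1 (Nat.dvd_of_mod_eq_zero h)).symm
  have i3 : ∀ m, om ^ (3 * m) = 1 := fun m => by
    rw [pow_mul, show om ^ 3 = 1 by decide, one_pow]
  by_cases h : q % 3 = 1
  · obtain ⟨e, he⟩ : ∃ e, q = 3 * e + 1 := ⟨q / 3, by omega⟩
    have he' : q / 3 = e := by omega
    have hf : ∀ α : O, (q : O) ∣ α ^ q - α := fun α => by
      have := f4_frob hq α
      rwa [show om ^ q = om by rw [he, pow_succ, i3, one_mul],
        show (α.re + α.im * om : O) = α by ext <;> simp [om]] at this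
    obtain ⟨Y, a1, a2, a3, a4, a5, a6, a7, a8, a9⟩ := f4_core (e := e) hq h3
      (.inr (Nat.even_iff.2 (by omega))) fun α ha => by
      refine f4_cancel hq ha ?_
      have := dvd_sub ((hf α).mul_right (star α)) ((hf (star α)).mul_right α)
      rw [← mul_star_self, star_pow]
      convert this using 1
      rw [he]
      ring
    refine ⟨Y, a1, a2, a3, a4, a5, a6, ?_, a8, fun _ => he' ▸ a9, fun h' => by omega, ?_⟩
    · rw [a7, qs, if_pos h, show ((q : ℤ) - 1) / 3 = e by omega, Int.cast_natCast]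
    · obtain ⟨α, ha, hb⟩ := f4_ne (e := e) hq h3 (by omega) (by omega)
      exact ⟨α, ha, fun h' => hb (by simpa [h'] using a9 α ha)⟩
  · obtain ⟨m, he⟩ : ∃ m, q = 3 * m + 2 := ⟨q / 3, by omega⟩
    have he' : q / 3 = m := by omega
    have hf : ∀ α : O, (q : O) ∣ α ^ q - star α := fun α => by
      have := f4_frob hq α
      rwa [show om ^ q = star om by rw [he, pow_add, i3, one_mul]; decide,
        show (α.re + α.im * star om : O) = star α by ext <;> simp [om]] at this
    obtain ⟨Y, a1, a2, a3, a4, a5, a6, a7, a8, a9⟩ := f4_core (e := m + 1) hq h3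
      (hodd.imp_right fun _ => Nat.even_iff.2 (by omega)) fun α _ => by
      have := dvd_sub ((hf α).mul_right α) ((hf (star α)).mul_right (star α))
      rw [star_pow]
      convert this using 1
      rw [he, star_star]
      ring
    have b7 : Y (star om) = op ((m + 1 : ℕ) : ZMod 3) := by rw [a5, a7, ← op_neg, neg_neg]
    refine ⟨fun α => Y (star α), fun α β => by rw [star_mul', a1], fun α γ => ?_,
      fun α ha => a3 _ (by rwa [nm_star]), fun α ha => a4 _ (by rwa [nm_star]),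
      fun α => a5 _, fun n hn => by rw [star_intCast, a6 n hn], ?_, by rw [a5, a8, star_one],
      fun h' => absurd h' h, fun _ α ha => ?_, ?_⟩
    · simp only [star_add, star_mul', star_natCast]
      exact a2 _ _
    · rw [b7, qs, if_neg h, show (-(q : ℤ) - 1) / 3 = -((m + 1 : ℕ) : ℤ) by omega, Int.cast_neg,
        neg_neg, Int.cast_natCast]
    · simpa [he'] using a9 (star α) (by rwa [nm_star])
    · rcases Nat.eq_zero_or_pos m with rfl | hm
      · exact ⟨om, f4_one hq, by
          simp only [b7]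
          decide⟩
      · obtain ⟨α, ha, hb⟩ := f4_ne (e := m + 1) hq h3 (by omega) (by omega)
        exact ⟨star α, by rwa [nm_star], fun h' => hb (by
          simpa [show Y α = 1 by simpa using h'] using a9 α ha)⟩

end Pool.Agent.Lib.MP_696deb_nt.CL
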