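import Pool.Agent.Lib.MP_696deb_nt.CL.F0

/-! Finite Fourier transforms. -/

set_option autoImplicit false

open scoped Classical Real
open Complex Finset

namespace Pool.Agent.Lib.MP_696deb_nt.CL

theorem f4b_crt {M N : ℕ} (hM : 0 < M) (hN : 0 < N) (h : M.Coprime N) (φ : ℤ → ℂ)
    (hφ : ∀ x k : ℤ, φ (x + (M * N : ℕ) * k) = φ x) :
    ∑ x ∈ range (M * N), φ x = ∑ a ∈ range M, ∑ b ∈ range N, φ (N * a + M * b) := by
  have hinj : Set.InjOn (fun p : ℕ × ℕ => (N * p.1 + M * p.2) % (M * N))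
      (range M ×ˢ range N : Finset (ℕ × ℕ)) := by
    rintro ⟨a, b⟩ hp ⟨a', b'⟩ hp' he
    simp only [coe_product, Set.mem_prod, mem_coe, mem_range] at hp hp'
    have he' : N * a + M * b ≡ N * a' + M * b' [MOD M * N] := he
    have h1 : N * a ≡ N * a' [MOD M] := by
      have := he'.of_mul_right N
      rwa [Nat.ModEq, Nat.add_mul_mod_self_left, Nat.add_mul_mod_self_left] at this
    have h2 : M * b ≡ M * b' [MOD N] := by
      have := he'.of_mul_left M
      rwa [Nat.ModEq, add_comm, add_comm (N * a'), Nat.add_mul_mod_self_left,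
        Nat.add_mul_mod_self_left] at this
    exact Prod.ext
      (Nat.ModEq.eq_of_lt_of_lt (Nat.ModEq.cancel_left_of_coprime h h1) hp.1 hp'.1)
      (Nat.ModEq.eq_of_lt_of_lt (Nat.ModEq.cancel_left_of_coprime h.symm h2) hp.2 hp'.2)
  have himg : (range M ×ˢ range N).image (fun p : ℕ × ℕ => (N * p.1 + M * p.2) % (M * N)) =
      range (M * N) := by
    refine eq_of_subset_of_card_le (fun x hx => ?_) ?_
    · obtain ⟨p, _, rfl⟩ := mem_image.1 hx
      exact mem_range.2 (Nat.mod_lt _ (Nat.mul_pos hM hN))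
    · rw [card_image_of_injOn hinj, card_product, card_range, card_range, card_range]
  rw [← himg, sum_image hinj, sum_product]
  refine sum_congr rfl fun a _ => sum_congr rfl fun b _ => ?_
  rw [← hφ _ ((N * a + M * b) / (M * N) : ℕ)]
  congr 1
  exact_mod_cast Nat.mod_add_div (N * a + M * b) (M * N)

theorem f4b_exp {M : ℕ} (hM : 0 < M) (x k : ℤ) :
    cexp (2 * π * I * ((x + M * k : ℤ) : ℂ) / M) = cexp (2 * π * I * (x : ℂ) / M) := by
  have h0 : (M : ℂ) ≠ 0 := Nat.cast_ne_zero.2 hM.ne'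
  rw [show 2 * π * I * ((x + M * k : ℤ) : ℂ) / M = 2 * π * I * (x : ℂ) / M + k * (2 * π * I) by
    push_cast; field_simp, Complex.exp_add, exp_int_mul_two_pi_mul_I, mul_one]

theorem f4b_per {β : Type} {M : ℕ} {f : O → β} (hf : Per M f) (x y k l : ℤ) :
    f ⟨x + M * k, y + M * l⟩ = f ⟨x, y⟩ := by
  rw [← hf ⟨x, y⟩ ⟨k, l⟩]
  congr 1
  ext <;> simp

theorem FT_mul {M N : ℕ} (hM : 0 < M) (hN : 0 < N) (h : M.Coprime N) {f g : O → ℂ} (hf : Per M f)
    (hg : Per N g) (ξ : O) : FT (M * N) (fun α => f α * g α) ξ =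
      FT M (fun α => f (N * α)) ξ * FT N (fun α => g (M * α)) ξ := by
  have hM0 : (M : ℂ) ≠ 0 := Nat.cast_ne_zero.2 hM.ne'
  have hN0 : (N : ℂ) ≠ 0 := Nat.cast_ne_zero.2 hN.ne'
  let H : ℤ → ℤ → ℂ := fun x y => f ⟨x, y⟩ * g ⟨x, y⟩ *
    cexp (2 * π * I * ((y * ξ.re - x * ξ.im : ℤ) : ℂ) / (M * N : ℕ))
  have hH : ∀ x y k l : ℤ, H (x + (M * N : ℕ) * k) (y + (M * N : ℕ) * l) = H x y := by
    intro x y k l
    have e1 : ∀ x k : ℤ, x + (M * N : ℕ) * k = x + M * (N * k) := fun x k => by push_cast; ring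
    have e2 : ∀ x k : ℤ, x + (M * N : ℕ) * k = x + N * (M * k) := fun x k => by push_cast; ring
    have e3 : (y + (M * N : ℕ) * l) * ξ.re - (x + (M * N : ℕ) * k) * ξ.im =
        y * ξ.re - x * ξ.im + (M * N : ℕ) * (l * ξ.re - k * ξ.im) := by ring
    simp only [H]
    rw [e3, f4b_exp (Nat.mul_pos hM hN)]
    congr 2
    · rw [e1, e1, f4b_per hf]
    · rw [e2, e2, f4b_per hg]
  have h1 : FT (M * N) (fun α => f α * g α) ξ = ∑ a ∈ range M, ∑ b ∈ range N,
      ∑ c ∈ range M, ∑ d ∈ range N, H (N * a + M * b) (N * c + M * d) := by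
    rw [← f4b_crt hM hN h (fun x => ∑ c ∈ range M, ∑ d ∈ range N, H x (N * c + M * d))
      fun x k => sum_congr rfl fun c _ => sum_congr rfl fun d _ => by simpa using hH x _ k 0]
    exact sum_congr rfl fun x _ => f4b_crt hM hN h (H x) fun y l => by simpa using hH x y 0 l
  rw [h1, FT, FT, sum_mul_sum]
  refine sum_congr rfl fun a _ => sum_congr rfl fun b _ => ?_
  rw [sum_mul_sum]
  refine sum_congr rfl fun c _ => sum_congr rfl fun d _ => ?_
  have e1 : (N : O) * ⟨a, c⟩ = ⟨N * a, N * c⟩ := by ext <;> simp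
  have e2 : (M : O) * ⟨b, d⟩ = ⟨M * b, M * d⟩ := by ext <;> simp
  simp only [H]
  rw [e1, e2, f4b_per hf, add_comm ((N : ℤ) * a), add_comm ((N : ℤ) * c), f4b_per hg,
    mul_mul_mul_comm, ← Complex.exp_add]
  congr 2
  push_cast
  field_simp
  ring

/-- The Fourier transform of a character that is trivial on integers. -/
theorem FT_prime {q : ℕ} (hq : q.Prime) {Y : O → ℂ} (per : Per q Y)
    (mul : ∀ α β, Y (α * β) = Y α * Y β) (zero : ∀ α, (q : ℤ) ∣ nm α → Y α = 0)
    (int : ∀ n : ℤ, ¬ (q : ℤ) ∣ n → Y n = 1) (ne : ∃ α, ¬ (q : ℤ) ∣ nm α ∧ Y α ≠ 1) (ξ : O) :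
    FT q Y ξ = q * Y ξ := by
  have := Fact.mk hq
  have hq0 : (q : ℂ) - 1 ≠ 0 := sub_ne_zero.2 (by exact_mod_cast hq.one_lt.ne')
  let y : ZMod q × ZMod q → ℂ := fun p => Y ⟨p.1.val, p.2.val⟩
  have hy : ∀ a b : ℤ, y (a, b) = Y ⟨a, b⟩ := fun a b => by
    simp only [y, ZMod.val_intCast]
    rw [← f4b_per per _ _ (a / q) (b / q), Int.emod_add_mul_ediv, Int.emod_add_mul_ediv]
  have hmul : ∀ (α : O) (p : ZMod q × ZMod q),
      y (α.re * p.1 - α.im * p.2, α.re * p.2 + α.im * p.1 - α.im * p.2) = Y α * y p := by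
    rintro α ⟨a, b⟩
    obtain ⟨a, rfl⟩ := ZMod.intCast_surjective a
    obtain ⟨b, rfl⟩ := ZMod.intCast_surjective b
    have h1 := hy (α.re * a - α.im * b) (α.re * b + α.im * a - α.im * b)
    push_cast at h1
    rw [h1, hy, ← mul]
    congr 1
    ext <;> simp [sub_eq_add_neg]
  have hsc : ∀ c : ZMod q, c ≠ 0 → ∀ p : ZMod q × ZMod q, y (c • p) = y p := by
    intro c hc p
    obtain ⟨c, rfl⟩ := ZMod.intCast_surjective c
    have h1 := hmul c p
    rw [int c fun h => hc ((ZMod.intCast_zmod_eq_zero_iff_dvd c q).2 h), one_mul] at h1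
    rw [← h1]
    congr 1
    ext <;> simp
  have hsum : ∑ p, y p = 0 := by
    obtain ⟨α, h1, h2⟩ := ne
    have h3 : (α.re : ZMod q) * α.re - α.re * α.im + α.im * α.im ≠ 0 := fun h => h1 (by
      rw [← ZMod.intCast_zmod_eq_zero_iff_dvd, nm]
      push_cast
      linear_combination h)
    have hinj : Function.Injective fun p : ZMod q × ZMod q =>
        ((α.re : ZMod q) * p.1 - α.im * p.2, (α.re : ZMod q) * p.2 + α.im * p.1 - α.im * p.2) := by
      intro p p' h
      obtain ⟨e1, e2⟩ := Prod.ext_iff.1 h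
      dsimp only at e1 e2
      exact Prod.ext (mul_left_cancel₀ h3 
          (by linear_combination ((α.re : ZMod q) - α.im) * e1 + α.im * e2))
        (mul_left_cancel₀ h3 (by linear_combination α.re * e2 - α.im * e1))
    have h4 := (Finite.injective_iff_bijective.1 hinj).sum_comp y
    simp only [hmul, ← mul_sum] at h4
    by_contra h5
    exact h2 (mul_right_cancel₀ h5 (h4.trans (one_mul _).symm))
  let L : ZMod q × ZMod q → ZMod q := fun p => p.2 * ξ.re - p.1 * ξ.im
  have hFT : FT q Y ξ = ∑ p, y p * ZMod.stdAddChar (L p) := by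
    have hr : ∀ F : ZMod q → ℂ, ∑ a, F a = ∑ x ∈ range q, F x := fun F =>
      sum_nbij' (fun a => a.val) (fun x => (x : ZMod q)) (fun a _ => mem_range.2 (ZMod.val_lt a))
        (fun _ _ => mem_univ _) (fun a _ => ZMod.natCast_zmod_val a)
        (fun x hx => ZMod.val_cast_of_lt (mem_range.1 hx)) fun a _ => by rw [ZMod.natCast_zmod_val]
    rw [FT, Fintype.sum_prod_type, hr]
    refine sum_congr rfl fun a _ => ?_
    rw [hr]
    refine sum_congr rfl fun b _ => ?_
    have h1 := hy a b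
    rw [Int.cast_natCast, Int.cast_natCast] at h1
    rw [h1, ← ZMod.stdAddChar_coe]
    simp [L]
  have hc : ∀ c : ZMod q, c ≠ 0 → FT q Y ξ = ∑ p, y p * ZMod.stdAddChar (c * L p) := by
    intro c hc
    rw [hFT, ← (MulAction.bijective (Units.mk0 c hc) (β := ZMod q × ZMod q)).sum_comp]
    refine sum_congr rfl fun p _ => ?_
    rw [Units.smul_mk0, hsc c hc]
    congr 2
    simp only [L, Prod.smul_fst, Prod.smul_snd, smul_eq_mul]
    ring
  have hmain : ((q : ℂ) - 1) * FT q Y ξ = q * ∑ p with L p = 0, y p := by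
    have h1 : ∑ c : ZMod q, ∑ p, y p * ZMod.stdAddChar (c * L p) = ((q : ℂ) - 1) * FT q Y ξ := by
      rw [← add_sum_erase _ _ (mem_univ 0), sum_congr rfl fun c h => (hc c (ne_of_mem_erase h)).symm,
        sum_const, card_erase_of_mem (mem_univ _), card_univ, ZMod.card, nsmul_eq_mul,
        Nat.cast_pred hq.pos]
      simp [hsum]
    rw [← h1, sum_comm, sum_filter, mul_sum]
    refine sum_congr rfl fun p _ => ?_
    rw [← mul_sum, AddChar.sum_mulShift _ (ZMod.isPrimitive_stdAddChar q), ZMod.card]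
    split_ifs <;> simp [mul_comm]
  have hi : Y ξ = y (ξ.re, ξ.im) := (hy ξ.re ξ.im).symm
  refine mul_left_cancel₀ hq0 ?_
  rw [hmain, mul_left_comm]
  congr 1
  have y0 : y 0 = 0 := zero _ (by simp [nm])
  rw [hi]
  set p0 : ZMod q × ZMod q := (((ξ.re : ℤ) : ZMod q), ((ξ.im : ℤ) : ZMod q)) with hp0
  have e1 : (ξ.im : ZMod q) = p0.2 := rfl
  have e2 : (ξ.re : ZMod q) = p0.1 := rfl
  by_cases h0 : p0 = 0
  · rw [filter_true_of_mem fun p _ => by simp [L, e1, e2, h0], hsum, h0, y0, mul_zero]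
  · have h1 : (univ.filter fun p => L p = 0) = univ.image fun c : ZMod q => c • p0 := by
      ext p
      simp only [mem_filter, mem_univ, true_and, mem_image, L, e1, e2]
      constructor
      · intro h
        by_cases h2 : p0.1 = 0
        · have h3 : p0.2 ≠ 0 := fun h3 => h0 (Prod.ext h2 h3)
          refine ⟨p.2 / p0.2, Prod.ext ?_ ?_⟩
          · rw [h2, mul_zero, zero_sub, neg_eq_zero, mul_eq_zero] at h
            simp [h2, h.resolve_right h3]
          · simp [h3]
        · refine ⟨p.1 / p0.1, Prod.ext (by simp [h2]) ?_⟩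
          simp only [Prod.smul_snd, smul_eq_mul]
          field_simp
          linear_combination -h
      · rintro ⟨c, rfl⟩
        simp only [Prod.smul_fst, Prod.smul_snd, smul_eq_mul]
        ring
    rw [h1, sum_image fun c _ c' _ h => smul_left_injective _ h0 h, ← add_sum_erase _ _ (mem_univ 0)]
    dsimp only
    rw [zero_smul, y0, zero_add, sum_congr rfl fun c h => hsc c (ne_of_mem_erase h) p0, sum_const,
      card_erase_of_mem (mem_univ _), card_univ, ZMod.card, nsmul_eq_mul, Nat.cast_pred hq.pos]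

theorem SD.mul {M q : ℕ} (hM : 0 < M) (hq : q.Prime) (h : ¬ q ∣ M) {f : O → ℂ} {ν : O} {w s : ℂ}
    (hf : SD M f ν w) (per : Per M f) (hs : ∀ α, f (q * α) = s * f α) {X : O → O} (hX : IsX q X)
    {e : ℕ} (he : e % 3 ≠ 0) (hν : X ν = 1) :
    SD (M * q) (fun α => f α * toC (star (X α) ^ e)) ν (w * s) := by
  have hmul : ∀ α β, toC (star (X (α * β)) ^ e) = toC (star (X α) ^ e) * toC (star (X β) ^ e) :=
    fun α β => by rw [hX.mul, star_mul', mul_pow, map_mul]
  have he0 : e ≠ 0 := fun h0 => he (by rw [h0])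
  have hY : ∀ ξ, FT q (fun α => toC (star (X (M * α)) ^ e)) ξ = q * toC (star (X ξ) ^ e) := fun ξ => by
    have h1 : X M = 1 := by
      simpa using hX.int M fun h' => h (Int.natCast_dvd_natCast.1 h')
    simp only [hX.mul (M : O), h1, one_mul]
    refine FT_prime (Y := fun α => toC (star (X α) ^ e)) hq (fun α γ => by simp only [hX.per α γ])
      hmul (fun α hα => by rw [hX.zero α hα, star_zero, zero_pow he0, map_zero])
      (fun n hn => by rw [hX.int n hn, star_one, one_pow, map_one]) ?_ ξ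
    obtain ⟨α, h2, h3⟩ := hX.ne
    refine ⟨α, h2, fun h4 => h3 ?_⟩
    have h5 : star (X α) ^ e = 1 := toC_inj (h4.trans (map_one toC).symm)
    have h6 : star (X α) ^ 3 = 1 := by rw [← star_pow, hX.cube α h2, star_one]
    have h7 : star (X α) ^ (e % 3) = 1 := by
      rw [← Nat.mod_add_div e 3, pow_add, pow_mul, h6, one_pow, mul_one] at h5
      exact h5
    have h8 : star (X α) = 1 := by
      rcases (by omega : e % 3 = 1 ∨ e % 3 = 2) with h9 | h9
      · rwa [h9, pow_one] at h7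
      · rw [h9] at h7
        rw [pow_succ, h7, one_mul] at h6
        exact h6
    rw [← star_star (X α), h8, star_one]
  have key : ∀ ξ, FT (M * q) (fun α => f α * toC (star (X α) ^ e)) ξ =
      s * FT M f ξ * (q * toC (star (X ξ) ^ e)) := fun ξ => by
    rw [FT_mul hM hq.pos ((Nat.Prime.coprime_iff_not_dvd hq).2 h).symm per
      (g := fun α => toC (star (X α) ^ e)) (fun α γ => by simp only [hX.per α γ]), hY]
    congr 1
    simp only [FT, hs, mul_sum, mul_assoc]
  refine ⟨fun ξ hξ => by rw [key, hf.zero ξ hξ, mul_zero, zero_mul], fun η => ?_⟩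
  rw [key, hf.eq, hX.mul ν, hν, one_mul]
  push_cast
  ring

end Pool.Agent.Lib.MP_696deb_nt.CL
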