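import Pool.Agent.Lib.MP_696deb_nt.CL.F0

/-! The component at three. -/

set_option autoImplicit false

open scoped Classical Real
open Complex Finset

namespace Pool.Agent.Lib.MP_696deb_nt.CL

theorem f5_sg : ∀ x y u v : ZMod 9,
    sg (x * u - y * v) (x * v + y * u - y * v) = sg x y * sg u v := by decide +kernel

theorem f5_add : ∀ x y u v : ZMod 9, sg x y = 0 ∨ sg u v = 0 ∨
    (lj (x * u - y * v) (x * v + y * u - y * v) = lj x y + lj u v ∧
      lh (x * u - y * v) (x * v + y * u - y * v) = lh x y + lh u v) := by decide +kernel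

theorem f5_mul (t K : ZMod 3) (x y u v : ZMod 9) :
    ph9 t K (x * u - y * v) (x * v + y * u - y * v) = ph9 t K x y * ph9 t K u v := by
  unfold ph9
  rw [f5_sg]
  rcases f5_add x y u v with h | h | ⟨h3, h4⟩
  · simp [h]
  · simp [h]
  rw [h3, h4, mul_mul_mul_comm, ← op_add, Int.cast_mul]
  congr 2
  ring

theorem f5_conj : ∀ (t K : ZMod 3) (x y : ZMod 9),
    ph9 t K (x - y) (-y) = star (ph9 t K x y) := by decide +kernel

theorem f5_bd : ∀ (t K : ZMod 3) (x y : ZMod 9), nm (ph9 t K x y) ≤ 1 := by decide +kernel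

theorem f5_prim : ∀ (t K : ZMod 3) (s h : ZMod 9),
    ph9 t K (3 * s + 1) (3 * h) = op (-(t * (ZMod.cast h : ZMod 3))) := by decide +kernel

theorem f5_nat : ∀ (t K : ZMod 3) (x : ZMod 9), ¬ x.val % 3 = 0 →
    ph9 t K x 0 = if x.val % 3 = 1 then 1 else -1 := by decide +kernel

theorem f5_re_mul (α β : O) :
    (((α * β).re : ℤ) : ZMod 9) = (α.re : ZMod 9) * β.re - (α.im : ZMod 9) * β.im := by
  rw [QuadraticAlgebra.re_mul]
  push_cast
  ring

theorem f5_im_mul (α β : O) : (((α * β).im : ℤ) : ZMod 9) =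
    (α.re : ZMod 9) * β.im + (α.im : ZMod 9) * β.re - (α.im : ZMod 9) * β.im := by
  rw [QuadraticAlgebra.im_mul]
  push_cast
  ring

/-- The three parts of a multiple of a power of the ninth root of unity. -/
def f5B (q : O) (r : ℕ) : O × O × O :=
  if r = 0 then (q, 0, 0) else if r = 1 then (0, q, 0) else if r = 2 then (0, 0, q)
  else if r = 3 then (q * om, 0, 0) else if r = 4 then (0, q * om, 0)
  else if r = 5 then (0, 0, q * om) else if r = 6 then (q * star om, 0, 0)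
  else if r = 7 then (0, q * star om, 0) else (0, 0, q * star om)

/-- The three parts of the Gauss sum. -/
def f5T (t K : ZMod 3) (a b : ℕ) : O × O × O :=
  ∑ x ∈ range 9, ∑ y ∈ range 9, f5B (ph9 t K (x : ZMod 9) (y : ZMod 9)) ((y * a + x * b) % 9)

/-- The value of the Gauss sum. -/
def f5X (t K : ZMod 3) (a b : ZMod 9) : O :=
  if t ≠ 0 then (w3 t K : O) * 9 * ph9 t K a b
  else if a.val % 3 = 0 ∧ b.val % 3 = 0 ∧ (K ≠ 2 ∨ (a + b).val = 0) then
    (w3 t K : O) * 9 * star (nu t K) *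
      ph9 t K (a.val / 3 : ℕ) (if K ≠ 2 then (b.val / 3 : ℕ) else 0)
  else 0

theorem f5_T : ∀ (t K : ZMod 3) (a b : ZMod 9),
    f5T t K a.val (-b).val = (f5X t K a b, 0, 0) := by decide +kernel

theorem f5_X : ∀ (t K : ZMod 3) (u v : ZMod 9),
    f5X t K (((nu t K).re : ZMod 9) * u - ((nu t K).im : ZMod 9) * v)
      (((nu t K).re : ZMod 9) * v + ((nu t K).im : ZMod 9) * u - ((nu t K).im : ZMod 9) * v) =
        (w3 t K : O) * 9 * star (nu t K) * ph9 t K u v := by decide +kernel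

theorem f5_zeta : cexp (2 * π * I / 9) ^ 3 = toC om := by
  rw [← Complex.exp_nat_mul, toC_om]
  congr 1
  push_cast
  ring

theorem f5_pow (q : O) {r : ℕ} (hr : r < 9) : toC q * cexp (2 * π * I / 9) ^ r =
    toC (f5B q r).1 + toC (f5B q r).2.1 * cexp (2 * π * I / 9) +
      toC (f5B q r).2.2 * cexp (2 * π * I / 9) ^ 2 := by
  have h : toC (star om) = (cexp (2 * π * I / 9) ^ 3) ^ 2 := by
    rw [f5_zeta, ← map_pow]
    exact congrArg toC (by decide)
  interval_cases r <;> simp only [f5B, Nat.reduceEqDiff, OfNat.ofNat_ne_zero, OfNat.ofNat_ne_one,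
    one_ne_zero, if_true, if_false, map_mul, map_zero, ← f5_zeta, h] <;> ring

theorem f5_exp (n : ℤ) : cexp (2 * π * I * (n : ℂ) / ((9 : ℕ) : ℂ)) =
    cexp (2 * π * I / 9) ^ ((n : ZMod 9)).val := by
  have h1 : (((n : ZMod 9).val : ℕ) : ℤ) = n % 9 := ZMod.val_intCast n
  have h2 : (n : ℂ) = (((n : ZMod 9).val : ℕ) : ℂ) + 9 * ((n / 9 : ℤ) : ℂ) := by
    have h3 : n = (((n : ZMod 9).val : ℕ) : ℤ) + 9 * (n / 9) := by omega
    exact_mod_cast congrArg (fun z : ℤ => (z : ℂ)) h3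
  rw [← Complex.exp_nat_mul, Complex.exp_eq_exp_iff_exists_int]
  refine ⟨n / 9, ?_⟩
  generalize (((n : ZMod 9).val : ℕ) : ℂ) = r at h2 ⊢
  generalize ((n / 9 : ℤ) : ℂ) = s at h2 ⊢
  rw [h2]
  push_cast
  ring

theorem f5_FT (t K : ZMod 3) (ξ : O) :
    FT 9 (fun α => toC (ph3 t K α)) ξ = toC (f5X t K ξ.re ξ.im) := by
  have h : FT 9 (fun α => toC (ph3 t K α)) ξ =
      toC (f5T t K (ξ.re : ZMod 9).val (-(ξ.im : ZMod 9)).val).1 +
      toC (f5T t K (ξ.re : ZMod 9).val (-(ξ.im : ZMod 9)).val).2.1 * cexp (2 * π * I / 9) +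
      toC (f5T t K (ξ.re : ZMod 9).val (-(ξ.im : ZMod 9)).val).2.2 * cexp (2 * π * I / 9) ^ 2 := by
    unfold FT f5T
    simp only [Prod.fst_sum, Prod.snd_sum, map_sum, Finset.sum_mul, ← Finset.sum_add_distrib]
    refine Finset.sum_congr rfl fun x _ => Finset.sum_congr rfl fun y _ => ?_
    have h1 : ph3 t K ⟨x, y⟩ = ph9 t K (x : ZMod 9) (y : ZMod 9) := by
      unfold ph3
      rw [Int.cast_natCast, Int.cast_natCast]
    have h2 : (((y : ℤ) * ξ.re - (x : ℤ) * ξ.im : ℤ) : ZMod 9) =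
        (y * (ξ.re : ZMod 9).val + x * (-(ξ.im : ZMod 9)).val : ℕ) := by
      rw [Nat.cast_add, Nat.cast_mul, Nat.cast_mul, ZMod.natCast_zmod_val, ZMod.natCast_zmod_val]
      push_cast
      ring
    rw [f5_exp, h1, h2, ZMod.val_natCast, f5_pow _ (Nat.mod_lt _ (by norm_num))]
  rw [h, f5_T]
  simp

variable (t K : ZMod 3)

theorem ph3_per : Per 9 (ph3 t K) := by
  intro α γ
  have h9 : (9 : ZMod 9) = 0 := by decide
  unfold ph3
  rw [QuadraticAlgebra.re_add, QuadraticAlgebra.im_add, Int.cast_add, Int.cast_add, f5_re_mul,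
    f5_im_mul, QuadraticAlgebra.re_natCast, QuadraticAlgebra.im_natCast]
  push_cast
  rw [h9]
  simp

theorem ph3_mul (α β : O) : ph3 t K (α * β) = ph3 t K α * ph3 t K β := by
  unfold ph3
  rw [f5_re_mul, f5_im_mul, f5_mul]

theorem ph3_conj (α : O) : ph3 t K (star α) = star (ph3 t K α) := by
  unfold ph3
  rw [QuadraticAlgebra.re_star, QuadraticAlgebra.im_star, Int.cast_neg, ← f5_conj, neg_one_mul,
    ← sub_eq_add_neg, Int.cast_sub]

theorem ph3_zero {α : O} (h : (3 : ℤ) ∣ nm α) : ph3 t K α = 0 := by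
  have h1 := three_dvd_nm.1 h
  have h3 : ((((α.re + α.im : ℤ) : ZMod 9).val : ℕ) : ℤ) = (α.re + α.im) % 9 :=
    ZMod.val_intCast _
  rw [Int.cast_add] at h3
  unfold ph3 ph9 sg
  rw [if_pos (by omega), Int.cast_zero, zero_mul]

theorem ph3_bd (α : O) : nm (ph3 t K α) ≤ 1 := f5_bd _ _ _ _

theorem ph3_om : ph3 t K om = op (-(K + 1)) := by
  revert t K
  decide +kernel

theorem ph3_neg_one : ph3 t K (-1) = -1 := by
  revert t K
  decide +kernel

theorem ph3_prim {α : O} (h : Prim α) : ph3 t K α = op (-(t * ((α.im / 3 : ℤ) : ZMod 3))) := by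
  obtain ⟨h1, h2⟩ := h
  have h3 : α.im = 3 * (α.im / 3) := by omega
  have h4 : α.re = 3 * (α.re / 3) + 1 := by omega
  unfold ph3
  generalize α.im / 3 = s at h3 ⊢
  generalize α.re / 3 = r at h4
  rw [h3, h4]
  push_cast
  rw [f5_prim, ZMod.cast_intCast (by decide : 3 ∣ 9)]

theorem ph3_nat {n : ℕ} (h : ¬ 3 ∣ n) : ph3 t K n = if n % 3 = 1 then 1 else -1 := by
  have h2 : (n : ZMod 9).val = n % 9 := ZMod.val_natCast _ _
  unfold ph3
  rw [QuadraticAlgebra.re_natCast, QuadraticAlgebra.im_natCast, Int.cast_natCast, Int.cast_zero,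
    f5_nat t K _ (by omega), h2, show n % 9 % 3 = n % 3 by omega]

theorem ph3_sd : SD 9 (fun α => toC (ph3 t K α)) (nu t K) (w3 t K) := by
  refine ⟨fun ξ hξ => ?_, fun η => ?_⟩
  · rw [f5_FT]
    have h1 : ((((ξ.re : ℤ) : ZMod 9).val : ℕ) : ℤ) = ξ.re % 9 := ZMod.val_intCast _
    have h2 : ((((ξ.im : ℤ) : ZMod 9).val : ℕ) : ℤ) = ξ.im % 9 := ZMod.val_intCast _
    have h3 : ((((ξ.re + ξ.im : ℤ) : ZMod 9).val : ℕ) : ℤ) = (ξ.re + ξ.im) % 9 :=
      ZMod.val_intCast _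
    rw [Int.cast_add] at h3
    unfold nu at hξ
    by_cases ht : t ≠ 0
    · rw [if_pos ht] at hξ
      exact absurd (one_dvd ξ) hξ
    rw [if_neg ht] at hξ
    rw [f5X, if_neg ht, if_neg, map_zero]
    rintro ⟨ha, hb, h⟩
    by_cases hK : K ≠ 2
    · rw [if_pos hK] at hξ
      exact hξ ((nat_dvd (q := 3)).2 ⟨by omega, by omega⟩)
    · rw [if_neg hK] at hξ
      have h4 := h.resolve_left hK
      refine hξ ⟨⟨(2 * ξ.im - ξ.re) / 9, (ξ.im - 2 * ξ.re) / 9⟩, ?_⟩
      ext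
      · rw [QuadraticAlgebra.re_mul]
        dsimp only
        omega
      · rw [QuadraticAlgebra.im_mul]
        dsimp only
        omega
  · rw [f5_FT, f5_re_mul, f5_im_mul, f5_X, map_mul, map_mul, map_mul, map_intCast, map_ofNat]
    rfl

end Pool.Agent.Lib.MP_696deb_nt.CL
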