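import Pool.Agent.Lib.MP_696deb_nt.CL.F2
import Pool.Agent.Lib.MP_696deb_nt.CL.F2b
import Pool.Agent.Lib.MP_696deb_nt.CL.F4
import Pool.Agent.Lib.MP_696deb_nt.CL.F4b
import Pool.Agent.Lib.MP_696deb_nt.CL.F5

/-! The Hecke character. -/

set_option autoImplicit false

open scoped Classical Real
open Complex Finset

namespace Pool.Agent.Lib.MP_696deb_nt.CL

/-- The exponent attached to a prime. -/
def f8k (q : ℕ) : ZMod 3 := ((qs q - 1) / 3 : ℤ)

/-- The sign that makes a prime primary. -/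
def f8s (q : ℕ) : ℤ := if q % 3 = 1 then 1 else -1

theorem f8_qs (q : ℕ) : qs q = f8s q * q := by
  unfold qs f8s
  split_ifs <;> simp

theorem f8_ndvd {q p : ℕ} (hq : q.Prime) (hp : p.Prime) (h : q ≠ p) : ¬ (q : ℤ) ∣ (p : ℤ) :=
  fun e => h ((Nat.prime_dvd_prime_iff_eq hq hp).1 (Int.natCast_dvd_natCast.1 e))

theorem f8_mod {q : ℕ} (hq : q.Prime) (h3 : q ≠ 3) : q % 3 ≠ 0 := fun h =>
  h3 ((Nat.prime_dvd_prime_iff_eq Nat.prime_three hq).1 (Nat.dvd_of_mod_eq_zero h)).symm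

theorem f8_per {β : Type} {m M : ℕ} {f : O → β} (h : Per m f) (e : m ∣ M) : Per M f := by
  obtain ⟨c, rfl⟩ := e
  intro α γ
  rw [Nat.cast_mul, mul_assoc, h]

theorem f8_pow (a : ZMod 3) (m : ℕ) : op a ^ m = op (m * a) := by
  induction m with
  | zero => rw [pow_zero, Nat.cast_zero, zero_mul, op_zero]
  | succ m ih => rw [pow_succ, ih, Nat.cast_succ, add_mul, one_mul, op_add]

theorem f8_op (Q : Finset ℕ) (f : ℕ → ZMod 3) : ∏ q ∈ Q, op (f q) = op (∑ q ∈ Q, f q) := by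
  induction Q using Finset.induction_on with
  | empty => rw [prod_empty, sum_empty, op_zero]
  | insert a s ha ih => rw [prod_insert ha, sum_insert ha, ih, op_add]

theorem f8_fac {n : ℕ} (hn : n ≠ 0) : n = 3 ^ n.factorization 3 *
    ∏ q ∈ n.primeFactors.erase 3, q ^ n.factorization q := by
  have h := Nat.prod_factorization_pow_eq_self hn
  rw [Finsupp.prod, Nat.support_factorization] at h
  by_cases h3 : 3 ∈ n.primeFactors
  · rw [← mul_prod_erase _ _ h3] at h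
    exact h.symm
  · rw [erase_eq_of_notMem h3, Finsupp.notMem_support_iff.1 (Nat.support_factorization n ▸ h3),
      pow_zero, one_mul, h]

/-- The class modulo nine, up to sign. -/
def f8R (x : ZMod 9) (a : ZMod 3) : Prop :=
  x = 1 + 3 * (a.val : ZMod 9) ∨ x = -(1 + 3 * (a.val : ZMod 9))

instance (x : ZMod 9) (a : ZMod 3) : Decidable (f8R x a) := by
  unfold f8R
  infer_instance

theorem f8R_mul : ∀ (x y : ZMod 9) (a b : ZMod 3), f8R x a → f8R y b → f8R (x * y) (a + b) := by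
  decide +kernel

theorem f8R_pow {x : ZMod 9} {a : ZMod 3} (h : f8R x a) (m : ℕ) : f8R (x ^ m) (m * a) := by
  induction m with
  | zero =>
    rw [pow_zero, Nat.cast_zero, zero_mul]
    decide
  | succ m ih =>
    rw [pow_succ, Nat.cast_succ, add_mul, one_mul]
    exact f8R_mul _ _ _ _ ih h

theorem f8R_prime {q : ℕ} (h : q % 3 ≠ 0) : f8R q (f8k q) := by
  have e : ∀ x : ZMod 9, f8R (1 + 3 * x) (ZMod.castHom (show 3 ∣ 9 by norm_num) (ZMod 3) x) ∧
      f8R (-(1 + 3 * x)) (ZMod.castHom (show 3 ∣ 9 by norm_num) (ZMod 3) x) := by decide +kernel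
  have k := e ((qs q - 1) / 3 : ℤ)
  rw [map_intCast] at k
  by_cases c : q % 3 = 1
  · have a : (q : ℤ) = 1 + 3 * ((qs q - 1) / 3) := by
      rw [qs, if_pos c]
      omega
    have b := congrArg (Int.cast : ℤ → ZMod 9) a
    rw [Int.cast_natCast, Int.cast_add, Int.cast_mul, Int.cast_one, Int.cast_ofNat] at b
    rw [b]
    exact k.1
  · have a : (q : ℤ) = -(1 + 3 * ((qs q - 1) / 3)) := by
      rw [qs, if_neg c]
      omega
    have b := congrArg (Int.cast : ℤ → ZMod 9) a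
    rw [Int.cast_natCast, Int.cast_neg, Int.cast_add, Int.cast_mul, Int.cast_one,
      Int.cast_ofNat] at b
    rw [b]
    exact k.2

theorem f8R_prod (P : Finset ℕ) (v : ℕ → ℕ) (h : ∀ q ∈ P, q % 3 ≠ 0) :
    f8R (∏ q ∈ P, q ^ v q : ℕ) (∑ q ∈ P, (v q : ZMod 3) * f8k q) := by
  induction P using Finset.induction_on with
  | empty =>
    rw [prod_empty, sum_empty, Nat.cast_one]
    decide
  | insert a s ha ih =>
    rw [prod_insert ha, sum_insert ha, Nat.cast_mul, Nat.cast_pow]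
    exact f8R_mul _ _ _ _ (f8R_pow (f8R_prime (h a (mem_insert_self a s))) _)
      (ih fun q hq => h q (mem_insert_of_mem hq))

theorem f8R_iff {m : ℕ} {a : ZMod 3} (h : f8R m a) : m % 9 = 1 ∨ m % 9 = 8 ↔ a = 0 := by
  have e : ∀ (x : ZMod 9) (a : ZMod 3), f8R x a → (x.val = 1 ∨ x.val = 8 ↔ a = 0) := by
    decide +kernel
  rw [← e _ _ h, ZMod.val_natCast]

theorem f8_sgn (Q : Finset ℕ) (h : ∀ q ∈ Q, q % 3 ≠ 0) :
    ∏ q ∈ Q, f8s q = (-1) ^ (Q.filter fun q => q % 3 = 2).card := by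
  rw [← prod_const, prod_filter]
  refine prod_congr rfl fun q hq => ?_
  have := h q hq
  unfold f8s
  split_ifs <;> first | rfl | omega

section X
variable {q : ℕ} {X : O → O}

theorem IsX.nat (h : IsX q X) (hq : q.Prime) {p : ℕ} (hp : p.Prime) (e : q ≠ p) : X p = 1 := by
  simpa using h.int p (f8_ndvd hq hp e)

theorem IsX.one (h : IsX q X) (hq : q.Prime) : X 1 = 1 := by
  simpa using h.int 1 fun e => hq.one_lt.ne' (Nat.dvd_one.1 (Int.natCast_dvd_natCast.1 e))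

theorem IsX.neg_one (h : IsX q X) (hq : q.Prime) : X (-1) = 1 := by
  simpa using h.int (-1) fun e =>
    hq.one_lt.ne' (Nat.dvd_one.1 (Int.natCast_dvd_natCast.1 (dvd_neg.1 e)))

theorem IsX.at_nu (h : IsX q X) (hq : q.Prime) (h3 : q ≠ 3) (t K : ZMod 3) : X (nu t K) = 1 := by
  have e : (⟨3, 6⟩ : O) = ((3 : ℕ) : O) * th := by decide
  have e2 : (3 : O) = ((3 : ℕ) : O) := rfl
  unfold nu
  split_ifs
  · exact h.one hq
  · rw [e2, h.nat hq Nat.prime_three h3]
  · rw [e, h.mul, h.nat hq Nat.prime_three h3, h.at_th, one_mul]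

theorem f8_bd {a b : O} (ha : nm a ≤ 1) (hb : nm b ≤ 1) : nm (a * b) ≤ 1 := by
  rw [nm_mul]
  exact mul_le_one₀ ha (nm_nonneg _) hb

theorem IsX.bd (h : IsX q X) (α : O) (m : ℕ) : nm (star (X α) ^ m) ≤ 1 := by
  have k : nm (star (X α)) ≤ 1 := by
    rw [nm_star]
    by_cases e : (q : ℤ) ∣ nm α
    · rw [h.zero α e]
      decide
    · obtain ⟨k, hk⟩ := cube_eq_one (h.cube α e)
      rw [hk]
      exact (by decide : ∀ k, nm (op k) ≤ 1) k
  induction m with
  | zero =>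
    rw [pow_zero]
    decide
  | succ m ih =>
    rw [pow_succ]
    exact f8_bd ih k

end X

/-- The character. -/
def f8phi (t K : ZMod 3) (X : ℕ → O → O) (v : ℕ → ℕ) (Q : Finset ℕ) (α : O) : O :=
  ph3 t K α * ∏ q ∈ Q, star (X q α) ^ v q

section phi
variable (t K : ZMod 3) {X : ℕ → O → O} {v : ℕ → ℕ} {Q : Finset ℕ}
  (hQ : ∀ q ∈ Q, q.Prime ∧ q ≠ 3 ∧ IsX q (X q) ∧ v q % 3 ≠ 0)
include hQ

theorem f8phi_mul (α β : O) :
    f8phi t K X v Q (α * β) = f8phi t K X v Q α * f8phi t K X v Q β := by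
  unfold f8phi
  rw [ph3_mul, prod_congr rfl fun q hq => by rw [(hQ q hq).2.2.1.mul, star_mul', mul_pow],
    prod_mul_distrib]
  ring

theorem f8phi_nat {p : ℕ} (hp : p.Prime) (h3 : p ≠ 3) (h : p ∉ Q) :
    f8phi t K X v Q p = f8s p := by
  unfold f8phi f8s
  rw [ph3_nat t K fun e => f8_mod hp h3 (Nat.mod_eq_zero_of_dvd e), prod_eq_one fun q hq => by
    rw [(hQ q hq).2.2.1.nat (hQ q hq).1 hp fun e => h (e ▸ hq), star_one, one_pow], mul_one]
  split_ifs <;> simp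

theorem f8phi_per : Per (9 * ∏ q ∈ Q, q) (f8phi t K X v Q) := fun α γ => by
  unfold f8phi
  rw [f8_per (ph3_per t K) (dvd_mul_right _ _), prod_congr rfl fun q hq => by
    rw [f8_per (hQ q hq).2.2.1.per ((dvd_prod_of_mem _ hq).mul_left 9)]]

theorem f8phi_sd : SD (9 * ∏ q ∈ Q, q) (fun α => toC (f8phi t K X v Q α)) (nu t K)
    ((w3 t K * ∏ q ∈ Q, f8s q : ℤ) : ℂ) := by
  induction Q using Finset.induction_on with
  | empty => simpa [f8phi] using ph3_sd t K
  | insert a s ha ih =>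
    have hs := fun q hq => hQ q (mem_insert_of_mem hq)
    obtain ⟨a1, a2, a3, a4⟩ := hQ a (mem_insert_self a s)
    have h0 : 0 < 9 * ∏ q ∈ s, q := Nat.mul_pos (by norm_num) (prod_pos fun q hq => (hs q hq).1.pos)
    have h1 : ¬ a ∣ 9 * ∏ q ∈ s, q := fun e => by
      rcases (Nat.Prime.dvd_mul a1).1 e with e | e
      · exact a2 ((Nat.prime_dvd_prime_iff_eq a1 Nat.prime_three).1
          (a1.dvd_of_dvd_pow (n := 2) e))
      · obtain ⟨q, hq, e⟩ := a1.prime.exists_mem_finset_dvd e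
        exact ha (((Nat.prime_dvd_prime_iff_eq a1 (hs q hq).1).1 e) ▸ hq)
    have k := SD.mul h0 a1 h1 (s := (f8s a : ℂ)) (ih hs)
      (fun α γ => congrArg _ (f8phi_per t K hs α γ))
      (fun α => by rw [f8phi_mul t K hs, f8phi_nat t K hs a1 a2 ha, map_mul, map_intCast]) a3 a4
      (a3.at_nu a1 a2 t K)
    have e1 : 9 * ∏ q ∈ insert a s, q = (9 * ∏ q ∈ s, q) * a := by
      rw [prod_insert ha]
      ring
    have e2 : (fun α => toC (f8phi t K X v (insert a s) α)) =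
        fun α => toC (f8phi t K X v s α) * toC (star (X a α) ^ v a) := by
      funext α
      rw [← map_mul, f8phi, f8phi, prod_insert ha]
      congr 1
      ring
    have e3 : ((w3 t K * ∏ q ∈ insert a s, f8s q : ℤ) : ℂ) =
        ((w3 t K * ∏ q ∈ s, f8s q : ℤ) : ℂ) * (f8s a : ℂ) := by
      rw [← Int.cast_mul, prod_insert ha]
      congr 1
      ring
    rw [e1, e2, e3]
    exact k

end phi

theorem exists_phi {n : ℕ} (hn : n ≠ 0) : ∃ (φ : O → O) (M : ℕ) (ν : O) (w : ℂ) (N : ℤ),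
    Gch N φ ∧ N ∣ 3 * n ∧ 0 < M ∧ Per M φ ∧ ν ≠ 0 ∧ w ≠ 0 ∧ SD M (fun α => toC (φ α)) ν w ∧
    (¬ Wp n → w = -1) ∧
    ∀ (p : ℕ) [Fact p.Prime] (z : O) (ρ : O →+* ZMod p) (χ : MulChar (ZMod p) O), Qc p z ρ χ →
      ¬ p ∣ n → φ z = star (χ n) := by
  obtain ⟨v, hv⟩ : ∃ v : ℕ → ℕ, ∀ q, n.factorization q = v q := ⟨_, fun _ => rfl⟩
  obtain ⟨Q, hQd⟩ : ∃ Q, Q = (n.primeFactors.erase 3).filter fun q => v q % 3 ≠ 0 := ⟨_, rfl⟩
  have hP : ∀ q ∈ n.primeFactors.erase 3, q.Prime ∧ q ≠ 3 := fun q hq =>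
    ⟨Nat.prime_of_mem_primeFactors (mem_of_mem_erase hq), ne_of_mem_erase hq⟩
  have hs : Q ⊆ n.primeFactors.erase 3 := hQd ▸ filter_subset _ _
  have hX : ∀ q : ℕ, ∃ X, q ∈ Q → IsX q X := fun q => by
    by_cases h : q ∈ Q
    · exact (exists_X (hP q (hs h)).1 (hP q (hs h)).2).imp fun _ k _ => k
    · exact ⟨id, fun k => absurd k h⟩
  choose X hX using hX
  have hQ : ∀ q ∈ Q, q.Prime ∧ q ≠ 3 ∧ IsX q (X q) ∧ v q % 3 ≠ 0 := fun q h =>
    ⟨(hP q (hs h)).1, (hP q (hs h)).2, hX q h, by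
      rw [hQd] at h
      exact (mem_filter.1 h).2⟩
  obtain ⟨K, hK⟩ : ∃ K, K = ∑ q ∈ Q, (v q : ZMod 3) * f8k q := ⟨_, rfl⟩
  have hF := f8_fac hn
  simp only [hv] at hF
  have hw : (w3 (v 3) K * ∏ q ∈ Q, f8s q : ℤ) = w3 (v 3) K *
      (-1) ^ (n.primeFactors.filter fun p => p % 3 = 2 ∧ v p % 3 ≠ 0).card := by
    rw [f8_sgn Q fun q hq => f8_mod (hQ q hq).1 (hQ q hq).2.1, hQd]
    congr 3
    ext q
    simp only [mem_filter, mem_erase]
    constructor
    · exact fun h => ⟨h.1.1.2, h.2, h.1.2⟩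
    · exact fun h => ⟨⟨⟨by omega, h.1⟩, h.2.2⟩, h.2.1⟩
  refine ⟨f8phi (v 3) K X v Q, _, nu (v 3) K, _, 3 * ∏ q ∈ Q, (q : ℤ),
    ⟨?_, f8phi_mul _ K hQ, ?_, ?_, fun α => ?_, fun p hp h α e => ?_, dvd_mul_right _ _,
      fun p hp h => ?_, fun α => ?_⟩, mul_dvd_mul_left _ ?_,
    Nat.mul_pos (by norm_num) (prod_pos fun q hq => (hQ q hq).1.pos), f8phi_per _ K hQ,
    (by decide : ∀ t K, nu t K ≠ 0) _ K, ?_, f8phi_sd _ K hQ, fun h => ?_,
    fun p _ z ρ χ h hp => ?_⟩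
  · have := ph3_nat (v 3) K (n := 1) (by norm_num)
    rw [Nat.cast_one, if_pos rfl] at this
    rw [f8phi, this, one_mul]
    exact prod_eq_one fun q h => by rw [(hX q h).one (hQ q h).1, star_one, one_pow]
  · rw [f8phi, ph3_om, prod_congr rfl fun q h => by
      rw [(hX q h).at_om, ← op_neg, neg_neg, f8_pow, ← f8k], f8_op, ← hK]
    exact (by decide : ∀ K : ZMod 3, op (-(K + 1)) * op K * om = 1) _
  · rw [f8phi, ph3_neg_one, prod_eq_one fun q h => by
      rw [(hX q h).neg_one (hQ q h).1, star_one, one_pow], mul_one]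
  · rw [f8phi, f8phi, star_mul', star_prod, ph3_conj,
      prod_congr rfl fun q h => by rw [(hX q h).conj, ← star_pow]]
  · by_cases h3 : p = 3
    · subst h3
      rw [f8phi, ph3_zero _ K e, zero_mul]
    · have hp' : Prime (p : ℤ) := Nat.prime_iff_prime_int.1 hp
      obtain ⟨q, hq, k⟩ := hp'.exists_mem_finset_dvd
        ((hp'.dvd_or_dvd h).resolve_left (f8_ndvd hp Nat.prime_three h3))
      obtain rfl : p = q := by_contra fun c => f8_ndvd hp (hQ q hq).1 c k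
      rw [f8phi, prod_eq_zero hq (by
        rw [(hX p hq).zero α e, star_zero, zero_pow fun c => (hQ p hq).2.2.2 (by rw [c])]),
        mul_zero]
  · rw [f8phi_nat _ K hQ hp (fun e => h (e ▸ dvd_mul_right _ _))
      fun e => h ((dvd_prod_of_mem _ e).mul_left 3), f8_qs, Int.cast_mul, Int.cast_natCast]
  · exact f8_bd (ph3_bd _ K α) (prod_induction _ (fun x : O => nm x ≤ 1) (fun _ _ => f8_bd)
      (by decide) fun q h => (hX q h).bd α _)
  · rw [← Nat.cast_prod, Int.natCast_dvd_natCast]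
    exact (prod_dvd_prod_of_subset _ _ _ (hs.trans (erase_subset _ _))).trans
      (Nat.prod_primeFactors_dvd n)
  · rw [hw, Ne, Int.cast_eq_zero]
    exact mul_ne_zero ((by decide : ∀ t K, w3 t K ≠ 0) _ K) (pow_ne_zero _ (by norm_num))
  · have e1 := f8R_prod _ v fun q hq => f8_mod (hP q hq).1 (hP q hq).2
    have e2 : n / 3 ^ v 3 = ∏ q ∈ n.primeFactors.erase 3, q ^ v q :=
      Nat.div_eq_of_eq_mul_right (by positivity) hF
    have e3 : K = ∑ q ∈ n.primeFactors.erase 3, (v q : ZMod 3) * f8k q := by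
      rw [hK, hQd]
      refine sum_filter_of_ne fun q _ c d => c ?_
      rw [(ZMod.natCast_eq_zero_iff _ 3).2 (Nat.dvd_of_mod_eq_zero d), zero_mul]
    have e4 : ∀ t : ZMod 3, (t = 1 ↔ t.val = 1) ∧ (t = 0 ↔ t.val = 0) := by decide
    rw [← e2, ← e3] at e1
    simp only [Wp, hv] at h
    rw [f8R_iff e1, ← ZMod.val_natCast (n := 3) (v 3), ← (e4 _).1, ← (e4 _).2] at h
    rw [hw, w3]
    split_ifs with c
    · rw [(Nat.not_even_iff_odd.1 fun d => h (iff_of_true d c)).neg_one_pow]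
      norm_num
    · rw [(by_contra fun d => h (iff_of_false d c) : Even _).neg_one_pow]
      norm_num
  · have hq : ∀ q ∈ n.primeFactors.erase 3, q ≠ p := fun q hq e =>
      hp (e ▸ Nat.dvd_of_mem_primeFactors (mem_of_mem_erase hq))
    have e1 : ∏ q ∈ Q, χ q ^ v q = ∏ q ∈ n.primeFactors.erase 3, χ q ^ v q := by
      rw [hQd]
      refine prod_filter_of_ne fun q k c d => c ?_
      obtain ⟨j, hj⟩ := Nat.dvd_of_mod_eq_zero d
      rw [hj, pow_mul, h.cube _ fun r => hq q k ((Nat.prime_dvd_prime_iff_eq Fact.out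
        (hP q k).1).1 ((ZMod.natCast_eq_zero_iff q p).1 r)).symm, one_pow]
    have e2 : χ n = χ 3 ^ v 3 * ∏ q ∈ Q, χ q ^ v q := by
      rw [e1]
      conv_lhs => rw [hF]
      simp only [Nat.cast_mul, Nat.cast_pow, Nat.cast_prod, map_mul, map_pow, map_prod,
        Nat.cast_ofNat]
    rw [e2, f8phi, ph3_prim _ K h.prim, h.three, f8_pow, star_mul', star_prod, op_neg]
    congr 1
    exact prod_congr rfl fun q k => by
      rw [h.recip (hQ q k).1 (hQ q k).2.1 (hq q (hs k)) (hX q k), star_pow]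

end Pool.Agent.Lib.MP_696deb_nt.CL
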