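import Pool.Agent.Lib.MP_696deb_nt.CL.W

/-! Definitions for the Hecke characters of the curves `y ^ 2 = x ^ 3 - 432 n ^ 2`. -/

set_option autoImplicit false

open scoped Real
open Complex Finset

namespace Pool.Agent.Lib.MP_696deb_nt.CL

/-- Eisenstein integers. -/
abbrev O : Type := QuadraticAlgebra ℤ (-1) (-1)

/-- The cube root of unity. -/
def om : O := ⟨0, 1⟩

/-- The prime above three. -/
def th : O := ⟨1, 2⟩

/-- Powers of the cube root of unity. -/
def op (k : ZMod 3) : O := om ^ k.val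

theorem op_add : ∀ a b : ZMod 3, op (a + b) = op a * op b := by decide

theorem op_zero : op 0 = 1 := by decide

theorem op_neg : ∀ a : ZMod 3, op (-a) = star (op a) := by decide

theorem op_cube : ∀ a : ZMod 3, op a ^ 3 = 1 := by decide

theorem op_inj : ∀ a b : ZMod 3, op a = op b → a = b := by decide

/-- The norm. -/
def nm (α : O) : ℤ := α.re ^ 2 - α.re * α.im + α.im ^ 2

/-- The complex cube root of unity. -/
noncomputable def wC : ℂ := (-1 + (√3 : ℝ) * I) / 2

theorem wC_sq : wC * wC = -1 - wC := by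
  have h : ((√3 : ℝ) : ℂ) ^ 2 = 3 := by
    rw [← ofReal_pow, Real.sq_sqrt (by norm_num)]
    norm_num
  unfold wC
  linear_combination (-1 / 4 : ℂ) * h + (((√3 : ℝ) : ℂ) ^ 2 / 4) * I_sq

/-- The complex embedding. -/
noncomputable def toC : O →+* ℂ where
  toFun α := α.re + α.im * wC
  map_one' := by simp [QuadraticAlgebra.re_one, QuadraticAlgebra.im_one]
  map_zero' := by simp
  map_add' α β := by
    simp only [QuadraticAlgebra.re_add, QuadraticAlgebra.im_add]
    push_cast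
    ring
  map_mul' α β := by
    simp only [QuadraticAlgebra.re_mul, QuadraticAlgebra.im_mul]
    push_cast
    linear_combination (-(α.im * β.im) : ℂ) * wC_sq

theorem toC_apply (α : O) : toC α = α.re + α.im * wC := rfl

/-- Primary elements. -/
def Prim (α : O) : Prop := α.re % 3 = 1 ∧ α.im % 3 = 0

/-- The elements of given norm. -/
noncomputable def reps (n : ℕ) : Finset O :=
  ((Icc (-(2 * n : ℤ)) (2 * n) ×ˢ Icc (-(2 * n : ℤ)) (2 * n)).image fun x => (⟨x.1, x.2⟩ : O)).filter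
    fun α => nm α = n

/-- Periodic functions. -/
def Per {β : Type} (M : ℕ) (f : O → β) : Prop := ∀ α γ : O, f (α + M * γ) = f α

/-- The finite Fourier transform. -/
noncomputable def FT (M : ℕ) (f : O → ℂ) (ξ : O) : ℂ :=
  ∑ x ∈ range M, ∑ y ∈ range M,
    f ⟨x, y⟩ * cexp (2 * π * I * ((y * ξ.re - x * ξ.im : ℤ) : ℂ) / M)

/-- Self-dual functions with root number `w`. -/
structure SD (M : ℕ) (f : O → ℂ) (ν : O) (w : ℂ) : Prop where
  zero : ∀ ξ, ¬ ν ∣ ξ → FT M f ξ = 0
  eq : ∀ η, FT M f (ν * η) = w * M * toC (star ν) * f η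

/-- The theta series of weight two. -/
noncomputable def tht (f : O → ℂ) (t : ℝ) : ℂ :=
  ∑' α : O, f α * toC α * (Real.exp (-π * t * (nm α : ℝ)) : ℝ)

/-- The prime with the sign that makes it primary. -/
def qs (q : ℕ) : ℤ := if q % 3 = 1 then q else -q

/-- The cubic character modulo a rational prime that is trivial on integers. -/
structure IsX (q : ℕ) (X : O → O) : Prop where
  mul : ∀ α β, X (α * β) = X α * X β
  per : Per q X
  zero : ∀ α, (q : ℤ) ∣ nm α → X α = 0
  cube : ∀ α, ¬ (q : ℤ) ∣ nm α → X α ^ 3 = 1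
  conj : ∀ α, X (star α) = star (X α)
  int : ∀ n : ℤ, ¬ (q : ℤ) ∣ n → X n = 1
  at_om : X om = op (-(((qs q - 1) / 3 : ℤ) : ZMod 3))
  at_th : X th = 1
  spec1 : q % 3 = 1 → ∀ α, ¬ (q : ℤ) ∣ nm α → (q : O) ∣ α ^ (q / 3) - X α * star α ^ (q / 3)
  spec2 : q % 3 = 2 → ∀ α, ¬ (q : ℤ) ∣ nm α →
    (q : O) ∣ star α ^ (q / 3 + 1) - X α * α ^ (q / 3 + 1)
  ne : ∃ α, ¬ (q : ℤ) ∣ nm α ∧ X α ≠ 1

/-- The cubic residue character of a primary prime of degree one. -/
structure Qc (p : ℕ) [Fact p.Prime] (z : O) (ρ : O →+* ZMod p) (χ : MulChar (ZMod p) O) : Prop where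
  mod : p % 3 = 1
  prim : Prim z
  norm : nm z = p
  ker : ∀ α, ρ α = 0 ↔ z ∣ α
  spec : ∀ x, ρ (χ x) = x ^ (p / 3)
  cube : ∀ x, x ≠ 0 → χ x ^ 3 = 1
  jac : jacobiSum χ χ = -z

/-- The sign of the unit part. -/
def sg (x y : ZMod 9) : ℤ := if (x + y).val % 3 = 0 then 0 else if (x + y).val % 3 = 1 then 1 else -1

/-- The exponent of the unit part. -/
def lj (x y : ZMod 9) : ZMod 3 := if y.val % 3 = 0 then 0 else if x.val % 3 = 0 then 1 else 2

/-- The second coordinate of the primary associate. -/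
def lb (x y : ZMod 9) : ZMod 9 :=
  sg x y * if y.val % 3 = 0 then y else if x.val % 3 = 0 then -x else x - y

/-- A third of it. -/
def lh (x y : ZMod 9) : ZMod 3 := ((lb x y).val / 3 : ℕ)

/-- The component at three on residues. -/
def ph9 (t K : ZMod 3) (x y : ZMod 9) : O := sg x y * op (-(K + 1) * lj x y - t * lh x y)

/-- The component at three. -/
def ph3 (t K : ZMod 3) (α : O) : O := ph9 t K α.re α.im

/-- The quotient of nine by the conductor at three. -/
def nu (t K : ZMod 3) : O := if t ≠ 0 then 1 else if K ≠ 2 then 3 else ⟨3, 6⟩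

/-- The local root number at three. -/
def w3 (t K : ZMod 3) : ℤ := if t = 1 ∨ t = 0 ∧ K = 0 then 1 else -1

/-- The finite part of a Hecke character of infinity type one. -/
structure Gch (M : ℤ) (φ : O → O) : Prop where
  one : φ 1 = 1
  mul : ∀ α β, φ (α * β) = φ α * φ β
  unit : φ om * om = 1
  neg : φ (-1) = -1
  conj : ∀ α, φ (star α) = star (φ α)
  zero : ∀ p : ℕ, p.Prime → (p : ℤ) ∣ M → ∀ α, (p : ℤ) ∣ nm α → φ α = 0
  three : (3 : ℤ) ∣ M
  int : ∀ p : ℕ, p.Prime → ¬ (p : ℤ) ∣ M → φ p * p = (qs p : ℤ)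
  bd : ∀ α, nm (φ α) ≤ 1

/-- The number of affine points modulo `p`. -/
noncomputable def cnt (n : ℕ) (p : ℕ) : ℕ := Nat.card {q : ZMod p × ZMod p //
  q.2 ^ 2 = q.1 ^ 3 + ((0 : ℤ) : ZMod p) * q.1 + ((-432 * (n : ℤ) ^ 2 : ℤ) : ZMod p)}

end Pool.Agent.Lib.MP_696deb_nt.CL
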