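import Pool.Agent.Lib.MP_696deb_nt.CL.D0

/-! Basic facts on Eisenstein integers. -/

set_option autoImplicit false

open scoped Classical Real
open Complex Finset

namespace Pool.Agent.Lib.MP_696deb_nt.CL

theorem nm_eq (α : O) : nm α = QuadraticAlgebra.norm α := by
  rw [QuadraticAlgebra.norm_def, nm]
  ring

theorem nm_mul (α β : O) : nm (α * β) = nm α * nm β := by simp only [nm_eq, map_mul]

theorem nm_star (α : O) : nm (star α) = nm α := by simp only [nm_eq, QuadraticAlgebra.norm_star]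

theorem f0_re (α : O) : 4 * nm α = (2 * α.im - α.re) ^ 2 + 3 * α.re ^ 2 := by
  rw [nm]
  ring

theorem f0_im (α : O) : 4 * nm α = (2 * α.re - α.im) ^ 2 + 3 * α.im ^ 2 := by
  rw [nm]
  ring

theorem nm_nonneg (α : O) : 0 ≤ nm α := by nlinarith [f0_re α, sq_nonneg α.re, sq_nonneg (2 * α.im - α.re)]

theorem nm_eq_zero {α : O} : nm α = 0 ↔ α = 0 := by
  refine ⟨fun h => QuadraticAlgebra.ext (pow_eq_zero_iff two_ne_zero |>.1 ?_)
    (pow_eq_zero_iff two_ne_zero |>.1 ?_), fun h => by rw [h]; rfl⟩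
  · nlinarith [f0_re α, sq_nonneg α.re, sq_nonneg (2 * α.im - α.re)]
  · nlinarith [f0_im α, sq_nonneg α.im, sq_nonneg (2 * α.re - α.im)]

theorem nm_int (n : ℤ) : nm n = n ^ 2 := by simp [nm_eq]

theorem nm_nat (n : ℕ) : nm n = (n : ℤ) ^ 2 := by simp [nm_eq]

theorem mul_star_self (α : O) : α * star α = (nm α : ℤ) := by
  rw [nm_eq, ← QuadraticAlgebra.algebraMap_norm_eq_mul_star]
  simp

theorem f0_conj : (starRingEnd ℂ) wC = -1 - wC := by
  simp only [wC, map_div₀, map_add, map_neg, map_one, map_mul, conj_ofReal, conj_I, map_ofNat]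
  ring

theorem toC_star (α : O) : toC (star α) = (starRingEnd ℂ) (toC α) := by
  simp only [toC_apply, QuadraticAlgebra.re_star, QuadraticAlgebra.im_star, map_add, map_mul,
    map_intCast, f0_conj]
  push_cast
  ring

theorem normSq_toC (α : O) : Complex.normSq (toC α) = nm α := by
  apply ofReal_injective
  rw [← mul_conj, ← toC_star, ← map_mul, mul_star_self]
  simp

theorem toC_inj : Function.Injective toC :=
  (injective_iff_map_eq_zero toC).2 fun α h => nm_eq_zero.1 (by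
    have := normSq_toC α
    rw [h, map_zero] at this
    exact_mod_cast this.symm)

theorem toC_om : toC om = cexp (2 * π * I / 3) := by
  rw [show (2 * π * I / 3 : ℂ) = ((π - π / 3 : ℝ) : ℂ) * I by push_cast; ring, exp_mul_I,
    ← ofReal_cos, ← ofReal_sin, Real.cos_pi_sub, Real.sin_pi_sub, Real.cos_pi_div_three,
    Real.sin_pi_div_three, toC_apply, om, wC]
  push_cast
  ring

instance : IsDomain O := toC_inj.isDomain toC

theorem mem_reps {n : ℕ} {α : O} : α ∈ reps n ↔ nm α = n := by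
  rw [reps, mem_filter]
  refine and_iff_right_of_imp fun h => mem_image.2 ⟨(α.re, α.im), ?_, rfl⟩
  have k : ∀ x y : ℤ, 4 * (n : ℤ) = y ^ 2 + 3 * x ^ 2 → x ∈ Icc (-(2 * n : ℤ)) (2 * n) := fun x y e =>
    mem_Icc.2 (abs_le.1 (by
      rcases eq_or_ne x 0 with rfl | h0
      · simp
      · nlinarith [sq_nonneg y, sq_abs x, Int.one_le_abs h0]))
  exact mem_product.2 ⟨k _ _ (h ▸ f0_re α), k _ _ (h ▸ f0_im α)⟩

theorem nm_eq_one {u : O} (h : nm u = 1) : ∃ k, u = op k ∨ u = -op k := by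
  have h1 := f0_re u
  have h2 := f0_im u
  obtain ⟨x, y⟩ := u
  simp only [h] at h1 h2
  have a1 : x ≤ 1 := by nlinarith [sq_nonneg (2 * y - x)]
  have a2 : -1 ≤ x := by nlinarith [sq_nonneg (2 * y - x)]
  have a3 : y ≤ 1 := by nlinarith [sq_nonneg (2 * x - y)]
  have a4 : -1 ≤ y := by nlinarith [sq_nonneg (2 * x - y)]
  interval_cases x <;> interval_cases y <;> first | decide | simp at h1

theorem cube_eq_one {u : O} (h : u ^ 3 = 1) : ∃ k, u = op k := by
  have e : nm u ^ 3 = 1 := by rw [nm_eq, ← map_pow, h, map_one]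
  obtain ⟨k, rfl | rfl⟩ := nm_eq_one ((pow_eq_one_iff_of_nonneg (nm_nonneg u) three_ne_zero).1 e)
  · exact ⟨k, rfl⟩
  · exact absurd h (by revert k; decide)

theorem nat_dvd {q : ℕ} {z : O} : (q : O) ∣ z ↔ (q : ℤ) ∣ z.re ∧ (q : ℤ) ∣ z.im :=
  ⟨fun ⟨w, h⟩ => ⟨⟨w.re, by simp [h]⟩, w.im, by simp [h]⟩, fun ⟨⟨a, ha⟩, b, hb⟩ =>
    ⟨⟨a, b⟩, QuadraticAlgebra.ext (by simp [ha]) (by simp [hb])⟩⟩

theorem three_dvd_nm {α : O} : (3 : ℤ) ∣ nm α ↔ (3 : ℤ) ∣ α.re + α.im := by
  rw [show nm α = (α.re + α.im) ^ 2 - 3 * (α.re * α.im) by rw [nm]; ring,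
    dvd_sub_left (dvd_mul_right _ _), Int.prime_three.dvd_pow_iff_dvd two_ne_zero]

/-- An inert prime that divides the norm divides the element. -/
theorem dvd_of_nm {p : ℕ} (hp : p.Prime) (h : p % 3 = 2) {α : O} (k : (p : ℤ) ∣ nm α) :
    (p : O) ∣ α := by
  have := Fact.mk hp
  rw [nat_dvd, ← ZMod.intCast_zmod_eq_zero_iff_dvd, ← ZMod.intCast_zmod_eq_zero_iff_dvd]
  rw [← ZMod.intCast_zmod_eq_zero_iff_dvd, nm] at k
  push_cast at k
  generalize (α.re : ZMod p) = x at *
  generalize (α.im : ZMod p) = y at *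
  have hy : y = 0 := by
    by_contra hy
    have e : (-x / y) ^ 2 + -x / y + 1 = 0 := by
      field_simp
      linear_combination k
    have e3 : (-x / y) ^ 3 = 1 := by linear_combination (-x / y - 1) * e
    have n1 : -x / y ≠ 1 := fun l => by
      rw [l] at e
      have := (ZMod.natCast_eq_zero_iff 3 p).1 (by linear_combination e)
      rw [(Nat.prime_dvd_prime_iff_eq hp Nat.prime_three).1 this] at h
      omega
    have := Fact.mk Nat.prime_three
    have n0 : -x / y ≠ 0 := fun l => by simp [l] at e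
    have := orderOf_eq_prime e3 n1 ▸ ZMod.orderOf_dvd_card_sub_one n0
    omega
  exact ⟨by simpa [hy] using k, hy⟩

/-- A cube root of unity is determined by its residue. -/
theorem root_inj {F : Type} [Field F] (h3 : (3 : F) ≠ 0) (σ : O →+* F) {u v : O} (hu : u ^ 3 = 1)
    (hv : v ^ 3 = 1) (h : σ u = σ v) : u = v := by
  obtain ⟨a, rfl⟩ := cube_eq_one hu
  obtain ⟨b, rfl⟩ := cube_eq_one hv
  by_contra n
  have e : ∀ a b : ZMod 3, op a ≠ op b → (op a - op b) * star (op a - op b) = 3 := by decide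
  have := congrArg σ (e a b n)
  rw [map_mul, map_sub, h, sub_self, zero_mul, map_ofNat] at this
  exact h3 this.symm

end Pool.Agent.Lib.MP_696deb_nt.CL
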