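import Pool.Agent.Lib.MP_696deb_nt.CL.F0

/-! The cubic residue character and the number of points. -/

set_option autoImplicit false

open scoped Classical Real
open Complex Finset

namespace Pool.Agent.Lib.MP_696deb_nt.CL

variable {p : ℕ} [Fact p.Prime] {z : O} {ρ : O →+* ZMod p} {χ : MulChar (ZMod p) O}

theorem f1_roots {R : Type} [CommRing R] [IsDomain R] {r u : R} (hr : r * r = -1 - r)
    (hu : u ^ 3 = 1) : u = 1 ∨ u = r ∨ u = r * r := by
  have : (u - 1) * ((u - r) * (u - r * r)) = 0 := by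
    linear_combination hu + (-u ^ 2 + r * u - (r - 1)) * hr
  simpa only [mul_eq_zero, sub_eq_zero] using this

theorem f1_three (h : p % 3 = 1) : (3 : ZMod p) ≠ 0 := fun k => by
  have := (Nat.prime_dvd_prime_iff_eq Fact.out Nat.prime_three).1
    ((ZMod.natCast_eq_zero_iff 3 p).1 (by exact_mod_cast k))
  omega

theorem f1_two (h : p % 3 = 1) : (2 : ZMod p) ≠ 0 := fun k => by
  have := (Nat.prime_dvd_prime_iff_eq Fact.out Nat.prime_two).1
    ((ZMod.natCast_eq_zero_iff 2 p).1 (by exact_mod_cast k))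
  omega

theorem f1_om {R : Type} [CommRing R] (σ : O →+* R) : σ om * σ om = -1 - σ om := by
  rw [← map_mul, show om * om = -1 - om by decide, map_sub, map_neg, map_one]

theorem f1_rho {R : Type} [CommRing R] (σ : O →+* R) (α : O) : σ α = α.re + α.im * σ om := by
  have : α = (α.re : O) + (α.im : O) * om := by ext <;> simp [om]
  conv_lhs => rw [this]
  rw [map_add, map_mul, map_intCast, map_intCast]

/-- An element that is killed by both maps to the prime field is divisible by `p`. -/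
theorem f1_both (h : p % 3 = 1) (ρ : O →+* ZMod p) {β : O} (h1 : ρ β = 0) (h2 : ρ (star β) = 0) :
    (p : O) ∣ β := by
  rw [f1_rho] at h1 h2
  rw [QuadraticAlgebra.re_star, QuadraticAlgebra.im_star] at h2
  push_cast at h2
  have hr := f1_om ρ
  have a : (β.im : ZMod p) = 0 := mul_left_cancel₀ (f1_three h) (by
    linear_combination -(1 + 2 * ρ om) * (h1 - h2) + 4 * β.im * hr)
  rw [a, zero_mul, add_zero] at h1
  exact nat_dvd.2 ⟨(ZMod.intCast_zmod_eq_zero_iff_dvd _ p).1 h1,
    (ZMod.intCast_zmod_eq_zero_iff_dvd _ p).1 a⟩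

/-- The cubic residue character, without the Jacobi sum. -/
structure Q0 (p : ℕ) [Fact p.Prime] (ρ : O →+* ZMod p) (χ : MulChar (ZMod p) O) : Prop where
  mod : p % 3 = 1
  spec : ∀ x, ρ (χ x) = x ^ (p / 3)
  cube : ∀ x, x ≠ 0 → χ x ^ 3 = 1

theorem exists_q0 (h : p % 3 = 1) : ∃ ρ χ, Q0 p ρ χ := by
  have hp : p.Prime := Fact.out
  have h2 := hp.two_le
  obtain ⟨g, hg⟩ := exists_prime_orderOf_dvd_card (G := (ZMod p)ˣ) 3
    (by rw [ZMod.card_units]; omega)
  obtain ⟨r, hr⟩ : ∃ r : ZMod p, r * r = -1 - r := by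
    have a : (g : ZMod p) ^ 3 = 1 := by
      rw [← Units.val_pow_eq_pow_val, ← hg, pow_orderOf_eq_one, Units.val_one]
    have b : (g : ZMod p) - 1 ≠ 0 := sub_ne_zero.2 fun k => by
      rw [Units.val_eq_one.1 k, orderOf_one] at hg
      omega
    exact ⟨g, mul_left_cancel₀ b (by linear_combination a)⟩
  let σ : O →+* ZMod p :=
    { toFun α := α.re + α.im * r
      map_one' := by simp [QuadraticAlgebra.re_one, QuadraticAlgebra.im_one]
      map_zero' := by simp
      map_add' α β := by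
        simp only [QuadraticAlgebra.re_add, QuadraticAlgebra.im_add]
        push_cast
        ring
      map_mul' α β := by
        simp only [QuadraticAlgebra.re_mul, QuadraticAlgebra.im_mul]
        push_cast
        linear_combination (-(α.im * β.im) : ZMod p) * hr }
  have hi : σ om = r := by
    change ((0 : ℤ) : ZMod p) + ((1 : ℤ) : ZMod p) * r = r
    simp
  have ex : ∀ a : ZMod p, ∃ u : O, σ u = a ^ (p / 3) ∧ (a ≠ 0 → u ^ 3 = 1) ∧ (a = 0 → u = 0) := by
    intro a
    by_cases ha : a = 0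
    · refine ⟨0, ?_, fun k => (k ha).elim, fun _ => rfl⟩
      rw [ha, map_zero, zero_pow]
      omega
    have : (a ^ (p / 3)) ^ 3 = 1 := by
      rw [← pow_mul, show p / 3 * 3 = p - 1 by omega]
      exact ZMod.pow_card_sub_one_eq_one ha
    rcases f1_roots hr this with k | k | k
    · exact ⟨1, by rw [k, map_one], fun _ => by decide, fun k => (ha k).elim⟩
    · exact ⟨om, by rw [k, hi], fun _ => by decide, fun k => (ha k).elim⟩
    · exact ⟨om * om, by rw [k, map_mul, hi], fun _ => by decide, fun k => (ha k).elim⟩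
  choose f f1 f2 f3 using ex
  refine ⟨σ,
    { toFun := f
      map_one' := root_inj (f1_three h) σ (f2 1 one_ne_zero) (one_pow 3)
        (by rw [f1, one_pow, map_one])
      map_mul' := fun a b => ?_
      map_nonunit' := fun a ha => f3 a (by simpa using ha) }, h, f1, f2⟩
  by_cases ha : a = 0
  · rw [f3 a ha, f3 _ (by rw [ha, zero_mul]), zero_mul]
  by_cases hb : b = 0
  · rw [f3 b hb, f3 _ (by rw [hb, mul_zero]), mul_zero]
  refine root_inj (f1_three h) σ (f2 _ (mul_ne_zero ha hb)) ?_ ?_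
  · rw [mul_pow, f2 a ha, f2 b hb, one_mul]
  · rw [map_mul, f1, f1, f1, mul_pow]

theorem Q0.sq (h : Q0 p ρ χ) (x : ZMod p) : χ x ^ 2 = star (χ x) := by
  by_cases hx : x = 0
  · simp [hx, MulChar.map_zero]
  obtain ⟨k, e⟩ := cube_eq_one (h.cube x hx)
  rw [e]
  revert k
  exact fun k _ => (by decide : ∀ k, op k ^ 2 = star (op k)) k

theorem Q0.inv (h : Q0 p ρ χ) (x : ZMod p) : χ⁻¹ x = star (χ x) := by
  by_cases hx : x = 0
  · simp [hx, MulChar.map_zero]
  have k : χ x⁻¹ * χ x = 1 := by rw [← map_mul, inv_mul_cancel₀ hx, map_one]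
  rw [MulChar.inv_apply', ← h.sq]
  linear_combination χ x ^ 2 * k - χ x⁻¹ * h.cube x hx

theorem Q0.ne_one (h : Q0 p ρ χ) : χ ≠ 1 := fun k => by
  have h2 := (Fact.out : p.Prime).two_le
  have hm := h.mod
  have := (FiniteField.forall_pow_eq_one_iff (K := ZMod p) (p / 3)).1 fun x => Units.ext (by
    rw [Units.val_pow_eq_pow_val, ← h.spec, k, MulChar.one_apply_coe, map_one, Units.val_one])
  rw [ZMod.card] at this
  have := Nat.le_of_dvd (by omega) this
  omega

theorem Q0.pow_three (h : Q0 p ρ χ) : χ ^ 3 = 1 := MulChar.ext fun a => by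
  rw [MulChar.pow_apply_coe, h.cube a a.ne_zero, MulChar.one_apply_coe]

theorem Q0.jac_norm (h : Q0 p ρ χ) : nm (jacobiSum χ χ) = p := by
  have hp : p.Prime := Fact.out
  have h3 : χ * χ ≠ 1 := fun k => h.ne_one (by
    rw [← h.pow_three, pow_succ, pow_two, k, one_mul])
  have e : star (jacobiSum χ χ) = jacobiSum χ⁻¹ χ⁻¹ := by
    simp only [jacobiSum, star_sum, star_mul', h.inv]
  have k := jacobiSum_mul_jacobiSum_inv (F := ZMod p) (F' := ℂ)
    (by rw [ZMod.ringChar_zmod_n, ringChar.eq_zero]; exact hp.ne_zero.symm)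
    ((MulChar.ringHomComp_ne_one_iff toC_inj).2 h.ne_one)
    ((MulChar.ringHomComp_ne_one_iff toC_inj).2 h.ne_one)
    (by rw [← MulChar.ringHomComp_mul]; exact (MulChar.ringHomComp_ne_one_iff toC_inj).2 h3)
  rw [MulChar.ringHomComp_inv, jacobiSum_ringHomComp, jacobiSum_ringHomComp, ← map_mul, ← e,
    mul_star_self, ZMod.card, map_intCast] at k
  exact_mod_cast k

theorem Q0.jac_res (h : Q0 p ρ χ) : ρ (jacobiSum χ χ) = 0 := by
  have hp : p.Prime := Fact.out
  have hm := h.mod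
  have h2 := hp.two_le
  simp only [jacobiSum, map_sum, map_mul, h.spec]
  simp only [sub_eq_neg_add, add_pow, mul_sum]
  rw [sum_comm]
  refine sum_eq_zero fun m hm' => ?_
  have := FiniteField.sum_pow_lt_card_sub_one (K := ZMod p) (p / 3 + m)
    (by rw [ZMod.card]; have := mem_range.1 hm'; omega)
  calc _ = ∑ x : ZMod p, (-1) ^ m * ((p / 3).choose m : ZMod p) * x ^ (p / 3 + m) :=
        sum_congr rfl fun x _ => by rw [neg_pow x]; ring
    _ = 0 := by rw [← mul_sum, this, mul_zero]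

theorem Q0.jac_three (h : Q0 p ρ χ) : ((3 : ℕ) : O) ∣ jacobiSum χ χ + p := by
  have e : jacobiSum χ χ + p = ∑ v : ZMod p, (χ v - 1) * (χ (1 - v) - 1) := by
    have a1 := MulChar.sum_eq_zero_of_ne_one h.ne_one
    have a2 : ∑ v : ZMod p, χ (1 - v) = 0 :=
      (Equiv.sum_comp (Equiv.subLeft (1 : ZMod p)) fun v => χ v).trans a1
    simp only [sub_mul, mul_sub, sum_sub_distrib, mul_one, one_mul, a1, a2, jacobiSum, sum_const,
      card_univ, ZMod.card, nsmul_eq_mul]
    ring
  rw [e]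
  refine dvd_sum fun v _ => ?_
  by_cases h0 : v = 0
  · simp [h0]
  by_cases h1 : 1 - v = 0
  · simp [← sub_eq_zero.1 h1]
  obtain ⟨a, ha⟩ := cube_eq_one (h.cube v h0)
  obtain ⟨b, hb⟩ := cube_eq_one (h.cube _ h1)
  rw [ha, hb, nat_dvd]
  exact (by decide : ∀ a b, ((3 : ℕ) : ℤ) ∣ ((op a - 1) * (op b - 1)).re ∧
    ((3 : ℕ) : ℤ) ∣ ((op a - 1) * (op b - 1)).im) a b

theorem exists_qc (h : p % 3 = 1) : ∃ z ρ χ, Qc p z ρ χ := by
  obtain ⟨ρ, χ, k⟩ := exists_q0 h
  have hn : nm (-jacobiSum χ χ) = p := by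
    rw [← k.jac_norm, nm, nm, QuadraticAlgebra.re_neg, QuadraticAlgebra.im_neg]
    ring
  have h0 : ρ (-jacobiSum χ χ) = 0 := by rw [map_neg, k.jac_res, neg_zero]
  refine ⟨-jacobiSum χ χ, ρ, χ, h, ?_, hn, fun α => ⟨fun e => ?_, ?_⟩, k.spec, k.cube,
    (neg_neg _).symm⟩
  · obtain ⟨a, b⟩ := nat_dvd.1 k.jac_three
    simp only [QuadraticAlgebra.re_add, QuadraticAlgebra.im_add, QuadraticAlgebra.re_natCast,
      QuadraticAlgebra.im_natCast] at a b
    simp only [Prim, QuadraticAlgebra.re_neg, QuadraticAlgebra.im_neg]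
    omega
  · generalize -jacobiSum χ χ = z at hn h0
    have hz : star z ≠ 0 := fun k => by
      rw [star_eq_zero.1 k, nm_eq_zero.2 rfl] at hn
      exact (Fact.out : p.Prime).ne_zero (by exact_mod_cast hn.symm)
    rw [← mul_dvd_mul_iff_right hz, mul_star_self, hn, Int.cast_natCast]
    exact f1_both h ρ (by rw [map_mul, e, zero_mul])
      (by rw [star_mul', star_star, map_mul, h0, mul_zero])
  · rintro ⟨c, rfl⟩
    rw [map_mul, h0, zero_mul]

theorem Qc.q0 (h : Qc p z ρ χ) : Q0 p ρ χ := ⟨h.mod, h.spec, h.cube⟩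

theorem Qc.three_ne (h : Qc p z ρ χ) : (3 : ZMod p) ≠ 0 := f1_three h.mod

theorem Qc.sq (h : Qc p z ρ χ) (x : ZMod p) : χ x ^ 2 = star (χ x) := h.q0.sq x

theorem Qc.inv (h : Qc p z ρ χ) (x : ZMod p) : χ⁻¹ x = star (χ x) := h.q0.inv x

theorem Qc.ne_one (h : Qc p z ρ χ) : χ ≠ 1 := h.q0.ne_one

theorem Qc.pow_three (h : Qc p z ρ χ) : χ ^ 3 = 1 := h.q0.pow_three

theorem Qc.neg_one (h : Qc p z ρ χ) : χ (-1) = 1 := by
  rw [← h.cube (-1) (neg_ne_zero.2 one_ne_zero), ← map_pow]
  congr 1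
  ring

theorem Q0.is_cube (h : Q0 p ρ χ) {u : ZMod p} (k : χ u = 1) : ∃ a, a ^ 3 = u := by
  have h2 := (Fact.out : p.Prime).two_le
  have hm := h.mod
  have hu : u ≠ 0 := fun e => by
    rw [e, MulChar.map_zero] at k
    exact zero_ne_one k
  obtain ⟨g, hg⟩ := IsCyclic.exists_generator (α := (ZMod p)ˣ)
  obtain ⟨i, hi⟩ := mem_powers_iff_mem_zpowers.2 (hg (Units.mk0 u hu))
  have hi' : g ^ i = Units.mk0 u hu := hi
  have e : g ^ (i * (p / 3)) = 1 := Units.ext (by
    rw [pow_mul, hi', Units.val_pow_eq_pow_val, Units.val_mk0, ← h.spec, k, map_one,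
      Units.val_one])
  rw [← orderOf_dvd_iff_pow_eq_one, orderOf_eq_card_of_forall_mem_zpowers hg,
    Nat.card_eq_fintype_card, ZMod.card_units, show p - 1 = 3 * (p / 3) by omega] at e
  obtain ⟨j, rfl⟩ := Nat.dvd_of_mul_dvd_mul_right (by omega) e
  exact ⟨(g ^ j : (ZMod p)ˣ), by
    rw [← Units.val_pow_eq_pow_val, ← pow_mul, mul_comm, hi', Units.val_mk0]⟩

theorem Q0.card (h : Q0 p ρ χ) (u : ZMod p) :
    ((univ.filter fun x : ZMod p => x ^ 3 = u).card : O) = 1 + χ u + star (χ u) := by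
  by_cases hu : u = 0
  · simp [hu, MulChar.map_zero, filter_eq']
  by_cases k : ∃ a, a ^ 3 = u
  · obtain ⟨a, rfl⟩ := k
    have ha : a ≠ 0 := fun e => hu (by rw [e]; ring)
    have hr := f1_om ρ
    have h3 := f1_three h.mod
    generalize ρ om = r at hr
    have e : (univ.filter fun x : ZMod p => x ^ 3 = a ^ 3) = {1 * a, r * a, r * r * a} := by
      ext x
      simp only [mem_filter, mem_univ, true_and, mem_insert, mem_singleton, ← div_eq_iff ha]
      refine ⟨fun e => f1_roots hr (by rw [div_pow, e, div_self hu]), fun e => ?_⟩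
      rw [← div_eq_one_iff_eq hu, ← div_pow]
      rcases e with e | e | e <;> rw [e]
      · ring
      · linear_combination (r - 1) * hr
      · linear_combination (r - 1) * (r ^ 3 + 1) * hr
    rw [e, card_eq_three.2 ⟨_, _, _, ?_, ?_, ?_, rfl⟩, map_pow, h.cube a ha, star_one]
    · norm_num
    all_goals refine fun e => h3 ?_
    all_goals have e := mul_right_cancel₀ ha e
    · linear_combination hr + (r + 2) * e
    · linear_combination (2 - r) * hr + (1 - r) * e
    · linear_combination (3 - 2 * r) * hr - (1 + 2 * r) * e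
  · rw [filter_eq_empty_iff.2 fun x _ e => k ⟨x, e⟩, card_empty, Nat.cast_zero]
    obtain ⟨j, e⟩ := cube_eq_one (h.cube u hu)
    have := mt h.is_cube k
    rw [e] at this ⊢
    exact (by decide : ∀ j, op j ≠ 1 → 0 = 1 + op j + star (op j)) j this

theorem f1_cnt (n : ℕ) :
    cnt n p = ∑ y : ZMod p, (univ.filter fun x : ZMod p => x ^ 3 = y ^ 2 + 432 * n ^ 2).card := by
  rw [cnt, Nat.card_eq_fintype_card, Fintype.card_subtype, card_filter,
    Fintype.sum_prod_type_right]
  refine sum_congr rfl fun y _ => ?_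
  rw [card_filter]
  refine sum_congr rfl fun x _ => if_congr ?_ rfl rfl
  push_cast
  constructor <;> intro e <;> linear_combination -e

theorem Qc.count (h : Qc p z ρ χ) {n : ℕ} (hn : ¬ p ∣ n) :
    (((p : ℤ) - cnt n p : ℤ) : O) = star (χ n) * z + χ n * star z := by
  have n0 : (n : ZMod p) ≠ 0 := fun k => hn ((ZMod.natCast_eq_zero_iff n p).1 k)
  have h2 := f1_two h.mod
  have h12 : (12 : ZMod p) ≠ 0 := by
    rw [show (12 : ZMod p) = 2 * 2 * 3 by norm_num]
    exact mul_ne_zero (mul_ne_zero h2 h2) h.three_ne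
  obtain ⟨c, hc⟩ : ∃ c : ZMod p, c ^ 2 = -432 * n ^ 2 :=
    ⟨12 * n * (1 + 2 * ρ om), by linear_combination 576 * (n : ZMod p) ^ 2 * f1_om ρ⟩
  have c0 : 2 * c ≠ 0 := mul_ne_zero h2 fun k =>
    mul_ne_zero (mul_ne_zero h.three_ne (pow_ne_zero 2 h12)) (pow_ne_zero 2 n0) (by
      rw [k] at hc
      linear_combination hc)
  have e : ∑ y : ZMod p, χ (y ^ 2 + 432 * n ^ 2) = star (χ n) * -z := by
    rw [← h.jac, ← h.sq, ← Equiv.sum_comp ((Equiv.mulLeft₀ _ c0).trans (Equiv.subRight c)),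
      jacobiSum, mul_sum]
    refine sum_congr rfl fun v _ => ?_
    rw [Equiv.trans_apply, Equiv.mulLeft₀_apply, Equiv.subRight_apply,
      show (2 * c * v - c) ^ 2 + 432 * n ^ 2 = 12 ^ 3 * (n ^ 2 * (v * (1 - v))) by
        linear_combination (2 * v - 1) ^ 2 * hc]
    rw [map_mul, map_mul, map_mul, map_pow, map_pow, h.cube _ h12, one_mul]
  have e' := congrArg star e
  simp only [star_sum, star_mul', star_star, star_neg] at e'
  rw [f1_cnt]
  push_cast
  simp only [h.q0.card, sum_add_distrib, e, e', sum_const, card_univ, ZMod.card, nsmul_eq_mul]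
  ring

theorem count_two (h : p % 3 = 2) (n : ℕ) : cnt n p = p := by
  have k : ∀ x : ZMod p, (x ^ 3) ^ (2 * (p / 3) + 1) = x := fun x => by
    rw [← pow_mul, show 3 * (2 * (p / 3) + 1) = p + (p - 1) by omega, pow_add, ZMod.pow_card,
      ← pow_succ', show p - 1 + 1 = p by omega, ZMod.pow_card]
  have b : Function.Bijective fun x : ZMod p => x ^ 3 :=
    Finite.injective_iff_bijective.1 fun x y e => by rw [← k x, ← k y]; exact congrArg (· ^ _) e
  rw [f1_cnt, sum_congr rfl fun y _ => (card_eq_one_iff_existsUnique.2 (by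
    simpa using b.existsUnique (y ^ 2 + 432 * n ^ 2)) : _ = 1)]
  simp

end Pool.Agent.Lib.MP_696deb_nt.CL
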