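import Pool.Agent.Lib.MP_696deb_nt.CL.F1

/-! Cubic reciprocity. -/

set_option autoImplicit false

open scoped Classical Real
open Complex Finset

namespace Pool.Agent.Lib.MP_696deb_nt.CL

section Gauss
variable {R F : Type} [Field R] [Fintype R] [Field F]

theorem f2_inv {c : MulChar R F} (hc : c ≠ 1) {ψ : AddChar R F} (hψ : ψ.IsPrimitive) :
    gaussSum c ψ * gaussSum c⁻¹ ψ = c (-1) * Fintype.card R := by
  rw [← mul_gaussSum_inv_eq_gaussSum c⁻¹, mul_left_comm, gaussSum_mul_gaussSum_eq_card hc hψ,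
    MulChar.inv_apply', inv_neg_one]

theorem f2_frob (q : ℕ) [Fact q.Prime] [CharP F q] (hq : (q : R) ≠ 0) (c : MulChar R F)
    (ψ : AddChar R F) : gaussSum c ψ ^ q = (c ^ q)⁻¹ (q : R) * gaussSum (c ^ q) ψ := by
  rw [gaussSum_frob, AddChar.pow_mulShift]
  exact gaussSum_mulShift_eq (c ^ q) ψ (Units.mk0 _ hq)

end Gauss

variable {p : ℕ} [Fact p.Prime] {z : O} {ρ : O →+* ZMod p} {χ : MulChar (ZMod p) O}

theorem f2_main (h : Qc p z ρ χ) {q : ℕ} (hq : q.Prime) (h3 : q ≠ 3) (hp : q ≠ p) {X : O → O}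
    (hX : IsX q X) (F : Type) [Field F] [IsAlgClosed F] [CharP F q] : χ q = X z := by
  have := Fact.mk hq
  have hpp : p.Prime := Fact.out
  have hqp : ¬ q ∣ p := fun k => hp ((Nat.prime_dvd_prime_iff_eq hq hpp).1 k)
  have hpq : (q : ZMod p) ≠ 0 := fun k =>
    hp ((Nat.prime_dvd_prime_iff_eq hpp hq).1 ((ZMod.natCast_eq_zero_iff _ _).1 k)).symm
  have hpF : (p : F) ≠ 0 := fun k => hqp ((CharP.cast_eq_zero_iff F q p).1 k)
  have : NeZero (p : F) := ⟨hpF⟩
  have h3F : (3 : F) ≠ 0 := fun k => h3 ((Nat.prime_dvd_prime_iff_eq hq Nat.prime_three).1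
    ((CharP.cast_eq_zero_iff F q 3).1 (by exact_mod_cast k)))
  obtain ⟨r, hr⟩ : ∃ r : F, r * r = -1 - r := by
    open Polynomial in
    obtain ⟨r, hr⟩ := IsAlgClosed.exists_root (Polynomial.X ^ 2 + Polynomial.X + C 1 : F[X]) (by
      rw [show degree _ = 2 by compute_degree!]; norm_num)
    simp only [Polynomial.IsRoot.def, Polynomial.eval_add, Polynomial.eval_pow, Polynomial.eval_X,
      Polynomial.eval_C] at hr
    exact ⟨r, by linear_combination hr⟩
  obtain ⟨σ, hσ⟩ : ∃ σ : O →+* F, ∀ a, σ a = a.re + a.im * r :=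
    ⟨{ toFun α := α.re + α.im * r
       map_one' := by simp [QuadraticAlgebra.re_one, QuadraticAlgebra.im_one]
       map_zero' := by simp
       map_add' α β := by
        simp only [QuadraticAlgebra.re_add, QuadraticAlgebra.im_add]
        push_cast
        ring
       map_mul' α β := by
        simp only [QuadraticAlgebra.re_mul, QuadraticAlgebra.im_mul]
        push_cast
        linear_combination (-(α.im * β.im) : F) * hr }, fun _ => rfl⟩
  obtain ⟨ζ, hζ⟩ := HasEnoughRootsOfUnity.exists_primitiveRoot F p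
  have hψ := AddChar.zmodChar_primitive_of_primitive_root p hζ
  set ψ := AddChar.zmodChar p ((IsPrimitiveRoot.iff_def ζ p).mp hζ).left
  set c : MulChar (ZMod p) F := χ.ringHomComp σ with hc
  have hca : ∀ x, c x = σ (χ x) := fun _ => rfl
  have c3 : c ^ 3 = 1 := by rw [hc, MulChar.ringHomComp_pow, h.pow_three, MulChar.ringHomComp_one]
  have c1 : c ≠ 1 := fun k => h.ne_one (MulChar.ext fun a => by
    have k1 := congrArg (fun t : MulChar (ZMod p) F => t a) k
    simp only [MulChar.one_apply_coe, hca] at k1 ⊢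
    exact root_inj h3F σ (h.cube _ a.ne_zero) (one_pow 3) (by rw [k1, map_one]))
  have c2 : c * c = c⁻¹ := eq_inv_of_mul_eq_one_left (by rw [← c3, pow_three'])
  have hcard : (Fintype.card (ZMod p) : F) = p := by rw [ZMod.card]
  have hZW : σ z * σ (star z) = p := by
    rw [← map_mul, mul_star_self, h.norm, Int.cast_natCast, map_natCast]
  have hZ : σ z ≠ 0 := left_ne_zero_of_mul (hZW ▸ hpF)
  have hW : σ (star z) ≠ 0 := right_ne_zero_of_mul (hZW ▸ hpF)
  have g0 : gaussSum c ψ ≠ 0 := gaussSum_ne_zero_of_nontrivial (hcard ▸ hpF) c1 hψ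
  have g2 : gaussSum c ψ * gaussSum c⁻¹ ψ = σ z * σ (star z) := by
    rw [f2_inv c1 hψ, hca, h.neg_one, map_one, one_mul, hcard, hZW]
  have g3 : gaussSum c ψ ^ 3 = -1 * (σ z ^ 2 * σ (star z)) := by
    have a1 := jacobiSum_mul_nontrivial (χ := c) (φ := c) (by rw [c2]; exact inv_ne_one.2 c1) ψ
    rw [c2, hc, jacobiSum_ringHomComp, h.jac, map_neg, ← hc] at a1
    linear_combination -gaussSum c ψ * a1 - σ z * g2
  have gq := f2_frob q hpq c ψ
  have hfr : σ z ^ q = z.re + z.im * r ^ q := by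
    rw [hσ, ← frobenius_def, map_add, map_mul, map_intCast, map_intCast, frobenius_def]
  have hnz : ¬ (q : ℤ) ∣ nm z := by rw [h.norm]; exact_mod_cast hqp
  have hdv : ∀ a b : O, (q : O) ∣ a - b → σ a = σ b := by
    rintro a b ⟨t, ht⟩
    rw [← sub_eq_zero, ← map_sub, ht, map_mul, map_natCast, CharP.cast_eq_zero, zero_mul]
  have r3 : r ^ 3 = 1 := by linear_combination (r - 1) * hr
  have m1 : (-1 : F) ^ q = -1 := neg_one_pow_char F q
  have m3 : (-1 : F) ^ 3 = -1 := by ring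
  refine root_inj h3F σ (h.cube _ hpq) (hX.cube _ hnz) ?_
  rw [← hca]
  have h0 : q % 3 ≠ 0 := fun k =>
    h3 ((Nat.prime_dvd_prime_iff_eq Nat.prime_three hq).1 (Nat.dvd_of_mod_eq_zero k)).symm
  by_cases h1 : q % 3 = 1
  · have sp := hdv _ _ (hX.spec1 h1 z hnz)
    rw [map_mul, map_pow, map_pow] at sp
    obtain ⟨k, hk⟩ : ∃ k, q / 3 = k := ⟨_, rfl⟩
    have e : q = 3 * k + 1 := by omega
    rw [hk] at sp
    have cq : c ^ q = c := by rw [e, pow_succ, pow_mul, c3, one_pow, one_mul]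
    have iq : r ^ q = r := by rw [e, pow_succ, pow_mul, r3, one_pow, one_mul]
    rw [iq, ← hσ] at hfr
    have z3 : σ z ^ (3 * k) = 1 := mul_right_cancel₀ hZ (by rw [← pow_succ, ← e, hfr, one_mul])
    have ci : c (q : ZMod p) * c⁻¹ (q : ZMod p) = 1 := by
      rw [← MulChar.mul_apply, mul_inv_cancel, MulChar.one_apply hpq.isUnit]
    have mk : (-1 : F) ^ k = 1 := by
      rw [e, pow_succ, pow_mul, m3] at m1
      linear_combination -m1
    have g5 : (σ z ^ 2 * σ (star z)) ^ k = c⁻¹ (q : ZMod p) := mul_right_cancel₀ g0 (by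
      rw [← one_mul (_ ^ k), ← mk, ← mul_pow, ← g3, ← pow_mul, ← pow_succ, ← e, gq, cq])
    refine mul_right_cancel₀ (pow_ne_zero k hW) ?_
    rw [← sp]
    calc _ = c (q : ZMod p) * (σ z ^ (3 * k) * σ (star z) ^ k) := by rw [z3, one_mul]
      _ = c (q : ZMod p) * (σ z ^ 2 * σ (star z)) ^ k * σ z ^ k := by ring
      _ = _ := by rw [g5, ci, one_mul]
  · have sp := hdv _ _ (hX.spec2 (by omega) z hnz)
    rw [map_mul, map_pow, map_pow] at sp
    obtain ⟨k, hk⟩ : ∃ k, q / 3 = k := ⟨_, rfl⟩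
    have e : q = 3 * k + 2 := by omega
    have e' : 3 * (k + 1) = q + 1 := by omega
    rw [hk] at sp
    have cq : c ^ q = c⁻¹ :=
      eq_inv_of_mul_eq_one_left (by rw [← pow_succ, ← e', pow_mul, c3, one_pow])
    have iq : r ^ q = -1 - r := by rw [e, pow_add, pow_mul, r3, one_pow, one_mul, pow_two, hr]
    have hfr' : σ z ^ q = σ (star z) := by
      rw [hfr, iq, hσ, QuadraticAlgebra.re_star, QuadraticAlgebra.im_star]
      push_cast
      ring
    have z3 : σ z ^ (3 * (k + 1)) = σ z * σ (star z) := by rw [e', pow_succ', hfr']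
    have mk : (-1 : F) ^ (k + 1) = 1 := by
      rw [← m3, ← pow_mul, e', pow_succ, m1]
      ring
    have g5 : (σ z ^ 2 * σ (star z)) ^ (k + 1) = c (q : ZMod p) * (σ z * σ (star z)) := by
      rw [← one_mul (_ ^ (k + 1)), ← mk, ← mul_pow, ← g3, ← pow_mul, e', pow_succ', gq, cq, inv_inv,
        mul_left_comm, g2]
    refine mul_right_cancel₀ (pow_ne_zero (k + 1) hZ) ?_
    rw [← sp]
    refine mul_right_cancel₀ (mul_ne_zero hZ hW) ?_
    calc _ = c (q : ZMod p) * (σ z * σ (star z)) * σ z ^ (k + 1) := by ring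
      _ = σ (star z) ^ (k + 1) * σ z ^ (3 * (k + 1)) := by rw [← g5]; ring
      _ = _ := by rw [z3]

theorem Qc.recip (h : Qc p z ρ χ) {q : ℕ} (hq : q.Prime) (h3 : q ≠ 3) (hp : q ≠ p) {X : O → O}
    (hX : IsX q X) : χ q = X z :=
  have := Fact.mk hq
  f2_main h hq h3 hp hX (AlgebraicClosure (ZMod q))

end Pool.Agent.Lib.MP_696deb_nt.CL
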