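import Pool.Agent.Lib.MP_696deb_nt.CL.F1
import Pool.Agent.Lib.MP_696deb_nt.Euler

/-! The coefficients of the theta series. -/

set_option autoImplicit false

open scoped Classical Real
open Complex Finset

namespace Pool.Agent.Lib.MP_696deb_nt.CL

theorem f3_mul {p : ℕ} {z : O} (hz : nm z = p) : z * star z = p := by
  rw [mul_star_self, hz, Int.cast_natCast]

theorem f3_star {z α : O} (h : z ∣ star α) : star z ∣ α := by
  obtain ⟨β, e⟩ := h
  exact ⟨star β, by rw [← star_mul', ← e, star_star]⟩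

theorem f3_pstar {z : O} (h : Prime z) : Prime (star z) :=
  (MulEquiv.prime_iff (starRingAut (R := O)).toMulEquiv).2 h

theorem f3_exists {p : ℕ} (hp : p.Prime) (h4 : p % 3 = 1) : ∃ z : O, nm z = p ∧ Prime z := by
  have := Fact.mk hp
  obtain ⟨z, ρ, χ, h⟩ := exists_qc h4
  refine ⟨z, h.norm, fun e => hp.ne_zero ?_, fun e => one_ne_zero (α := ZMod p) ?_, fun a b k => ?_⟩
  · have := h.norm
    rw [nm_eq_zero.2 e] at this
    exact_mod_cast this.symm
  · rw [← map_one ρ]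
    exact (h.ker 1).2 e.dvd
  · rwa [← h.ker, map_mul, mul_eq_zero, h.ker, h.ker] at k

theorem f3_prime {p : ℕ} (hp : p.Prime) (h4 : p % 3 = 1) {z : O} (hz : nm z = p) : Prime z := by
  obtain ⟨y, h1, h2⟩ := f3_exists hp h4
  have key : ∀ x : O, nm x = p → y ∣ x → Prime x := by
    rintro _ e ⟨u, rfl⟩
    rw [nm_mul, h1, mul_eq_left₀ (by exact_mod_cast hp.ne_zero)] at e
    exact (associated_mul_unit_right y u (IsUnit.of_mul_eq_one (star u)
      (by rw [mul_star_self, e, Int.cast_one]))).prime h2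
  rcases h2.dvd_or_dvd (Dvd.intro _ ((f3_mul h1).trans (f3_mul hz).symm)) with k | k
  · exact key z hz k
  · simpa using f3_pstar (key _ ((nm_star z).trans hz) k)

theorem f3_both {p : ℕ} (hp : p.Prime) (h4 : p % 3 = 1) {z α : O} (hz : nm z = p) :
    z ∣ α ∧ star z ∣ α ↔ (p : O) ∣ α := by
  refine ⟨?_, fun h => ⟨(Dvd.intro _ (f3_mul hz)).trans h,
    (Dvd.intro_left _ (f3_mul hz)).trans h⟩⟩
  rintro ⟨⟨β, rfl⟩, h⟩
  rw [← f3_mul hz]
  refine mul_dvd_mul_left _ (((f3_pstar (f3_prime hp h4 hz)).dvd_or_dvd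
    h).resolve_left fun k => ?_)
  have k1 := mul_dvd_mul_left z k
  rw [f3_mul hz, nat_dvd, QuadraticAlgebra.im_mul] at k1
  rw [nm] at hz
  have hq := Nat.prime_iff_prime_int.1 hp
  have k2 : (p : ℤ) ∣ z.im * (2 * z.re - z.im) := k1.2.trans (Eq.dvd (by ring))
  obtain ⟨b, hb⟩ : (p : ℤ) ∣ z.im := (hq.dvd_or_dvd k2).elim id fun ⟨c, e⟩ => by
    have k3 : (p : ℤ) ∣ 3 * z.im ^ 2 :=
      ⟨4 - p * c ^ 2, by linear_combination 4 * hz - (2 * z.re - z.im + p * c) * e⟩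
    refine (hq.dvd_or_dvd k3).elim (fun e => ?_) hq.dvd_of_dvd_pow
    have := (Nat.prime_dvd_prime_iff_eq hp Nat.prime_three).1 (Int.natCast_dvd_natCast.1 e)
    omega
  obtain ⟨a, ha⟩ : (p : ℤ) ∣ z.re := hq.dvd_of_dvd_pow (n := 2)
    ⟨1 + z.re * b - p * b ^ 2, by rw [hb] at hz; linear_combination hz⟩
  refine hq.not_dvd_one ⟨a ^ 2 - a * b + b ^ 2, mul_left_cancel₀ hq.ne_zero ?_⟩
  rw [ha, hb] at hz
  linear_combination -hz

section
variable {ψ : O → O} (hψ : ∀ α β, ψ (α * β) = ψ α * ψ β)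
include hψ

theorem f3_div {k : ℕ} (hk : k ≠ 0) {w : O} (hw : nm w = k) (m : ℕ) :
    ∑ α ∈ (reps (k * m)).filter (w ∣ ·), ψ α = ψ w * ∑ α ∈ reps m, ψ α := by
  have k0 : (k : ℤ) ≠ 0 := by exact_mod_cast hk
  have w0 : w ≠ 0 := fun e => k0 (by rw [← hw, nm_eq_zero.2 e])
  rw [mul_sum]
  refine (sum_bij (fun α _ => w * α) (fun α h => ?_) (fun _ _ _ _ e => mul_left_cancel₀ w0 e)
    (fun α h => ?_) fun α _ => (hψ _ _).symm).symm
  · refine mem_filter.2 ⟨mem_reps.2 ?_, Dvd.intro _ rfl⟩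
    rw [nm_mul, hw, mem_reps.1 h, Nat.cast_mul]
  · obtain ⟨h, β, rfl⟩ := mem_filter.1 h
    rw [mem_reps, nm_mul, hw, Nat.cast_mul] at h
    exact ⟨β, mem_reps.2 (mul_left_cancel₀ k0 h), rfl⟩

theorem f3_divp {p : ℕ} (hp : p ≠ 0) (n : ℕ) :
    ∑ α ∈ (reps (p * n)).filter ((p : O) ∣ ·), ψ α =
      if p ∣ n then ψ p * ∑ α ∈ reps (n / p), ψ α else 0 := by
  have e : nm p = (p * p : ℕ) := by rw [nm_nat, Nat.cast_mul, pow_two]
  split_ifs with h
  · obtain ⟨m, rfl⟩ := h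
    rw [← mul_assoc, f3_div hψ (mul_ne_zero hp hp) e, Nat.mul_div_cancel_left _ hp.bot_lt]
  · refine sum_eq_zero fun α hα => absurd ?_ h
    obtain ⟨h, β, rfl⟩ := mem_filter.1 hα
    rw [mem_reps, nm_mul, e] at h
    exact Nat.dvd_of_mul_dvd_mul_left hp.bot_lt (Int.natCast_dvd_natCast.1 ⟨_, h.symm⟩)

theorem f3_three {p : ℕ} (hp : p.Prime) (h4 : p % 3 = 2) (n : ℕ) :
    ∑ α ∈ reps (p * n), ψ α = if p ∣ n then ψ p * ∑ α ∈ reps (n / p), ψ α else 0 := by
  rw [← f3_divp hψ hp.ne_zero, filter_true_of_mem fun α hα => ?_]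
  exact dvd_of_nm hp h4 ⟨n, by rw [mem_reps.1 hα, Nat.cast_mul]⟩

theorem f3_one {p : ℕ} (hp : p.Prime) (h4 : p % 3 = 1) {z : O} (hz : nm z = p) (n : ℕ) :
    ∑ α ∈ reps (p * n), ψ α + (if p ∣ n then ψ p * ∑ α ∈ reps (n / p), ψ α else 0) =
      (ψ z + ψ (star z)) * ∑ α ∈ reps n, ψ α := by
  rw [add_mul, ← f3_div hψ hp.ne_zero hz, ← f3_div hψ hp.ne_zero ((nm_star z).trans hz),
    ← sum_union_inter, ← filter_or, ← filter_and, ← f3_divp hψ hp.ne_zero,
    filter_congr fun α _ => f3_both hp h4 hz,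
    filter_true_of_mem (p := fun α => _ ∨ _) fun α hα => ?_]
  exact ((f3_prime hp h4 hz).dvd_or_dvd (Dvd.intro (star z * n)
    (by rw [f3_mul (mem_reps.1 hα), ← mul_assoc, f3_mul hz, Nat.cast_mul]))).imp_right f3_star

end

theorem Gch.hecke {M : ℤ} {φ : O → O} (h : Gch M φ) : ∃ a : ℕ → ℤ,
    Hecke a (fun p => if (p : ℤ) ∣ M then 0 else p) ∧
    (∀ n, ∑ α ∈ reps n, φ α * α = 6 * (a n : O)) ∧
    (∀ p : ℕ, p.Prime → p % 3 = 2 → a p = 0) ∧
    ∀ (p : ℕ) (z : O), p.Prime → p % 3 = 1 → nm z = p →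
      (a p : O) = φ z * z + star (φ z * z) := by
  have hψ : ∀ α β, φ (α * β) * (α * β) = φ α * α * (φ β * β) := fun α β => by
    rw [h.mul, mul_mul_mul_comm]
  have hs : ∀ z, φ (star z) * star z = star (φ z * z) := fun z => by rw [h.conj, star_mul']
  have hn : φ (-1) * -1 = 1 := by rw [h.neg, neg_mul_neg, mul_one]
  have s1 : ∑ α ∈ reps 1, φ α * α = 6 := by
    rw [show reps 1 = {1, om, om * om, -1, -1 * om, -1 * (om * om)} by decide,
      sum_congr rfl (g := fun _ => 1) fun α hα => ?_]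
    · decide
    · simp only [mem_insert, mem_singleton] at hα
      rcases hα with rfl | rfl | rfl | rfl | rfl | rfl <;>
        simp only [hψ, h.unit, h.one, hn, mul_one]
  have rel : ∀ p : ℕ, p.Prime → ∃ T : ℤ, ∀ n, ∑ α ∈ reps (p * n), φ α * α + (if p ∣ n then
      ((if (p : ℤ) ∣ M then 0 else p : ℤ) : O) * ∑ α ∈ reps (n / p), φ α * α else 0) =
      T * ∑ α ∈ reps n, φ α * α := fun p hp => by
    by_cases hM : (p : ℤ) ∣ M
    · refine ⟨0, fun n => ?_⟩
      rw [sum_eq_zero fun α hα => ?_]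
      · simp [hM]
      · rw [h.zero p hp hM α (by rw [mem_reps.1 hα]; exact_mod_cast Dvd.intro _ rfl), zero_mul]
    have h2 : p % 3 ≠ 0 := fun e => hM (by
      rw [← (Nat.prime_dvd_prime_iff_eq Nat.prime_three hp).1 (Nat.dvd_of_mod_eq_zero e)]
      exact h.three)
    have h3 := h.int p hp hM
    rw [if_neg hM]
    by_cases h4 : p % 3 = 1
    · obtain ⟨z, hz, -⟩ := f3_exists hp h4
      refine ⟨2 * (φ z * z).re - (φ z * z).im, fun n => ?_⟩
      rw [qs, if_pos h4] at h3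
      rw [← h3, f3_one (ψ := fun α => φ α * α) hψ hp h4 hz, hs]
      generalize φ z * z = x
      congr 1
      ext
      · simp only [QuadraticAlgebra.re_add, QuadraticAlgebra.re_star, QuadraticAlgebra.re_intCast]
        push_cast
        ring
      · simp only [QuadraticAlgebra.im_add, QuadraticAlgebra.im_star, QuadraticAlgebra.im_intCast]
        ring
    · refine ⟨0, fun n => ?_⟩
      rw [qs, if_neg h4] at h3
      rw [f3_three (ψ := fun α => φ α * α) hψ hp (by omega), h3]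
      split_ifs <;> simp
  have ex : ∀ n, ∃ a : ℤ, ∑ α ∈ reps n, φ α * α = 6 * (a : O) := fun n => by
    induction n using Nat.strong_induction_on with
    | _ n ih =>
      rcases n.eq_zero_or_pos with rfl | h0
      · exact ⟨0, by rw [show reps 0 = {0} by decide]; simp⟩
      by_cases h1 : n = 1
      · exact ⟨1, by rw [h1, s1]; simp⟩
      obtain ⟨p, hp, m, rfl⟩ := Nat.exists_prime_and_dvd h1
      have h2 : m < p * m := lt_mul_of_one_lt_left (Nat.pos_of_mul_pos_left h0) hp.one_lt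
      obtain ⟨T, hT⟩ := rel p hp
      obtain ⟨a, ha⟩ := ih m h2
      obtain ⟨b, hb⟩ := ih (m / p) ((Nat.div_le_self _ _).trans_lt h2)
      refine ⟨T * a - if p ∣ m then (if (p : ℤ) ∣ M then 0 else p) * b else 0, ?_⟩
      rw [eq_sub_of_add_eq (hT m), ha, hb]
      split_ifs <;> push_cast <;> ring
  choose a ha using ex
  have inj : ∀ {x y : O}, 6 * x = 6 * y → x = y := mul_left_cancel₀ (by decide)
  have a1 : a 1 = 1 := by exact_mod_cast inj ((ha 1).symm.trans (s1.trans (mul_one _).symm))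
  refine ⟨a, ⟨a1, fun p hp n _ => ?_⟩, ha, fun p hp h4 => ?_, fun p z hp h4 hz => inj ?_⟩
  · obtain ⟨T, hT⟩ := rel p hp
    have e1 := hT 1
    have e2 := hT n
    rw [if_neg hp.not_dvd_one, mul_one, add_zero, s1, ha, mul_comm (T : O)] at e1
    rw [← inj e1, ha, ha, ha] at e2
    refine Int.cast_injective (α := O) (inj ?_)
    split_ifs at e2 ⊢ <;> push_cast at e2 ⊢ <;> linear_combination e2
  · have e := f3_three (ψ := fun α => φ α * α) hψ hp h4 1
    rw [if_neg hp.not_dvd_one, mul_one, ha] at e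
    exact_mod_cast inj (e.trans (mul_zero _).symm)
  · have e := f3_one (ψ := fun α => φ α * α) hψ hp h4 hz 1
    rwa [if_neg hp.not_dvd_one, mul_one, add_zero, ha, s1, hs, mul_comm _ 6] at e

end Pool.Agent.Lib.MP_696deb_nt.CL
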