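import Pool.Agent.Lib.MP_696deb_nt.CL.F0

/-! Poisson summation. -/

set_option autoImplicit false

open scoped Classical Real
open Complex Finset HurwitzZeta QuadraticAlgebra

namespace Pool.Agent.Lib.MP_696deb_nt.CL

theorem f6_mul {f g : ℤ → ℂ} {s t : ℂ} (hf : HasSum f s) (hg : HasSum g t) :
    HasSum (fun p : ℤ × ℤ => f p.1 * g p.2) (s * t) :=
  hf.mul hg (summable_mul_of_summable_norm (summable_norm_iff.2 hf.summable)
    (summable_norm_iff.2 hg.summable))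

theorem f6_sq : ((√3 : ℝ) : ℂ) ^ 2 = 3 := by
  rw [← ofReal_pow, Real.sq_sqrt (by norm_num)]
  rfl

theorem f6_ne : ((√3 : ℝ) : ℂ) ≠ 0 := ofReal_ne_zero.2 (by positivity)

theorem f6_left (c d : ℝ) {x : ℝ} (hx : 0 < x) :
    HasSum (fun p : ℤ × ℤ => (((p.1 + c : ℝ) : ℂ) + √3 * I * ((p.2 + d : ℝ) : ℂ)) *
      (Real.exp (-π * x * ((p.1 + c) ^ 2 + 3 * (p.2 + d) ^ 2)) : ℝ))
      (1 / (√3 * x ^ 2) * (sinKernel c (1 / x) * cosKernel d (1 / (3 * x)) +
        I / √3 * (cosKernel c (1 / x) * sinKernel d (1 / (3 * x))))) := by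
  have h3 : 0 < 3 * x := by positivity
  convert (f6_mul (hasSum_ofReal.2 (hasSum_int_oddKernel c hx))
    (hasSum_ofReal.2 (hasSum_int_evenKernel d h3))).add
    ((f6_mul (hasSum_ofReal.2 (hasSum_int_evenKernel c hx))
      (hasSum_ofReal.2 (hasSum_int_oddKernel d h3))).mul_left (√3 * I)) using 1
  · funext p
    rw [show -π * x * ((p.1 + c) ^ 2 + 3 * (p.2 + d) ^ 2) =
      -π * (p.1 + c) ^ 2 * x + -π * (p.2 + d) ^ 2 * (3 * x) by ring, Real.exp_add]
    simp only [ofReal_mul]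
    ring
  · have k : ∀ {y : ℝ}, 0 < y → y ^ (3 / 2 : ℝ) = y * √y := fun hy => by
      rw [show (3 / 2 : ℝ) = 1 + 1 / 2 by norm_num, Real.rpow_add hy, Real.rpow_one,
        Real.sqrt_eq_rpow]
    have s0 : ((√x : ℝ) : ℂ) ≠ 0 := ofReal_ne_zero.2 (by positivity)
    have s2 : (x : ℂ) = (√x : ℝ) ^ 2 := by rw [← ofReal_pow, Real.sq_sqrt hx.le]
    have s3 := f6_ne
    simp only [oddKernel_functional_equation _ x, evenKernel_functional_equation _ x,
      oddKernel_functional_equation _ (3 * x), evenKernel_functional_equation _ (3 * x), k hx, k h3,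
      ← Real.sqrt_eq_rpow, Real.sqrt_mul zero_le_three]
    push_cast
    generalize ((√x : ℝ) : ℂ) = r at s0 s2
    rw [s2, ← f6_sq]
    field_simp

theorem f6_right (c d : ℝ) {x : ℝ} (hx : 0 < x) :
    HasSum (fun p : ℤ × ℤ => ((p.2 : ℂ) / √3 - I * p.1) * cexp (2 * π * I * (c * p.1 + d * p.2)) *
      (Real.exp (-π * (1 / x) * (p.1 ^ 2 + p.2 ^ 2 / 3)) : ℝ))
      (sinKernel c (1 / x) * cosKernel d (1 / (3 * x)) +
        I / √3 * (cosKernel c (1 / x) * sinKernel d (1 / (3 * x)))) := by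
  have h1 : 0 < 1 / x := by positivity
  have h3 : 0 < 1 / (3 * x) := by positivity
  refine ((f6_mul (hasSum_int_sinKernel c h1) (hasSum_int_cosKernel d h3)).add ((f6_mul
    (hasSum_int_cosKernel c h1) (hasSum_int_sinKernel d h3)).mul_left _)).congr_fun fun p => ?_
  rw [show -π * (1 / x) * ((p.1 : ℝ) ^ 2 + (p.2 : ℝ) ^ 2 / 3) =
    -π * (p.1 : ℝ) ^ 2 * (1 / x) + -π * (p.2 : ℝ) ^ 2 * (1 / (3 * x)) by ring, Real.exp_add,
    ofReal_mul, mul_add, exp_add, ← mul_assoc _ (c : ℂ), ← mul_assoc _ (d : ℂ)]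
  generalize cexp (2 * π * I * c * p.1) = A
  generalize cexp (2 * π * I * d * p.2) = B
  generalize ((Real.exp (-π * (p.1 : ℝ) ^ 2 * (1 / x)) : ℝ) : ℂ) = C
  generalize ((Real.exp (-π * (p.2 : ℝ) ^ 2 * (1 / (3 * x))) : ℝ) : ℂ) = D
  linear_combination A * B * C * D * p.2 / √3 * I_mul_I

theorem f6_core (a b : ℝ) {x : ℝ} (hx : 0 < x) : ∃ S : ℂ,
    HasSum (fun γ : O => (((γ.re + a : ℝ) : ℂ) + ((γ.im + b : ℝ) : ℂ) * wC) * (Real.exp (-π * x *
      ((γ.re + a) ^ 2 - (γ.re + a) * (γ.im + b) + (γ.im + b) ^ 2)) : ℝ)) (4 / (3 * x ^ 2) * S) ∧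
    HasSum (fun ξ : O => cexp (2 * π * I * (b * ξ.re - a * ξ.im)) * toC ξ *
      (Real.exp (-π * (4 / (3 * x)) * (nm ξ : ℝ)) : ℝ)) S := by
  have s3 := f6_ne
  have x0 : (x : ℂ) ≠ 0 := ofReal_ne_zero.2 hx.ne'
  have hr := ((f6_right (a - b / 2) (b / 2) hx).add
    (f6_right (a - (b + 1) / 2) ((b + 1) / 2) hx)).mul_left ((√3 : ℝ) / 4 : ℂ)
  have k : ∀ (p : ℤ × ℤ) (h : ℤ) (e : ℂ), (p.2 : ℂ) = p.1 + 2 * h + e →
      cexp (2 * π * I * ((a - (b + 1) / 2 : ℝ) * p.1 + ((b + 1) / 2 : ℝ) * p.2)) =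
      cexp (2 * π * I * ((a - b / 2 : ℝ) * p.1 + (b / 2 : ℝ) * p.2)) * cexp (e * (π * I)) := by
    intro p h e hp
    rw [← exp_add, exp_eq_exp_iff_exists_int]
    exact ⟨h, by push_cast; linear_combination π * I * hp⟩
  refine ⟨_, ?_, ((Function.Injective.hasSum_iff (g := fun ξ : O => (-ξ.im, 2 * ξ.re - ξ.im))
    (fun u v e => ?_) fun p hp => ?_).2 hr).congr_fun fun ξ => ?_⟩
  · have hb : Function.Bijective (Sum.elim (fun p : ℤ × ℤ => (⟨p.1 + p.2, 2 * p.2⟩ : O))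
        fun p : ℤ × ℤ => (⟨p.1 + p.2, 2 * p.2 + 1⟩ : O)) := by
      constructor
      · rintro (⟨u, v⟩ | ⟨u, v⟩) (⟨u', v'⟩ | ⟨u', v'⟩) e <;> simp at e ⊢ <;> omega
      · rintro ⟨u, v⟩
        by_cases h : v % 2 = 0
        · exact ⟨.inl (u - v / 2, v / 2), by simp; omega⟩
        · exact ⟨.inr (u - v / 2, v / 2), by simp; omega⟩
    refine (Equiv.ofBijective _ hb).hasSum_iff.1 ?_
    convert HasSum.sum ((f6_left (a - b / 2) (b / 2) hx).congr_fun fun p => ?_)
      ((f6_left (a - (b + 1) / 2) ((b + 1) / 2) hx).congr_fun fun p => ?_) using 1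
    · rw [← mul_add, ← f6_sq]
      field_simp
    all_goals
      simp only [Function.comp, Equiv.ofBijective_apply, Sum.elim_inl, Sum.elim_inr, wC]
      congr 1
      · push_cast
        ring
      · congr 2
        push_cast
        ring
  · simp only [Prod.mk.injEq] at e
    ext <;> omega
  · have h : (p.2 - p.1) % 2 = 1 := by
      by_contra c
      exact hp ⟨⟨(p.2 - p.1) / 2, -p.1⟩, Prod.ext (by simp) (by dsimp only; omega)⟩
    rw [k p ((p.2 - p.1) / 2) 1 (by exact_mod_cast (by omega)), one_mul, exp_pi_mul_I]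
    ring
  · rw [Function.comp, k _ ξ.re 0 (by push_cast; ring), zero_mul, exp_zero, mul_one,
      show -π * (4 / (3 * x)) * (nm ξ : ℝ) = -π * (1 / x) * (((-ξ.im : ℤ) : ℝ) ^ 2 +
        ((2 * ξ.re - ξ.im : ℤ) : ℝ) ^ 2 / 3) by rw [nm]; push_cast; ring,
      show 2 * π * I * (b * ξ.re - a * ξ.im : ℂ) = 2 * π * I * ((a - b / 2 : ℝ) * (-ξ.im : ℤ) +
        (b / 2 : ℝ) * (2 * ξ.re - ξ.im : ℤ)) by push_cast; ring, toC_apply, wC]
    generalize cexp _ = A
    generalize ((Real.exp _ : ℝ) : ℂ) = B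
    push_cast
    field_simp
    ring

theorem f6_split {M : ℕ} (hM : 0 < M) {F : O → ℂ} {s : ℕ → ℕ → ℂ}
    (h : ∀ x y : ℕ, HasSum (fun γ : O => F (⟨x, y⟩ + M * γ)) (s x y)) :
    HasSum F (∑ x ∈ range M, ∑ y ∈ range M, s x y) := by
  have M0 : (M : ℤ) ≠ 0 := by omega
  have key : ∀ x ∈ range M, ∀ y ∈ range M,
      HasSum (fun α : O => if α.re % M = x ∧ α.im % M = y then F α else 0) (s x y) :=
    fun x hx y hy => by
      rw [mem_range] at hx hy
      refine (Function.Injective.hasSum_iff (g := fun γ : O => (⟨x, y⟩ + M * γ : O))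
        (fun a b e => by simpa [QuadraticAlgebra.ext_iff, hM.ne'] using e)
        fun α hα => if_neg fun k => hα ⟨⟨α.re / M, α.im / M⟩, ?_⟩).1 ?_
      · ext
        · simp [← k.1, Int.emod_add_mul_ediv]
        · simp [← k.2, Int.emod_add_mul_ediv]
      · convert h x y using 2 with γ
        refine if_pos ?_
        simp [Int.emod_eq_of_lt, hx, hy]
  convert hasSum_sum fun x hx => hasSum_sum (key x hx) using 2 with α
  have h1 := Int.emod_nonneg α.re M0
  have h2 := Int.emod_nonneg α.im M0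
  have h3 := Int.emod_lt_of_pos α.re (b := M) (by omega)
  have h4 := Int.emod_lt_of_pos α.im (b := M) (by omega)
  rw [sum_eq_single_of_mem (α.re % M).toNat (mem_range.2 (by omega))
    fun x _ hx => sum_eq_zero fun y _ => if_neg (by omega),
    sum_eq_single_of_mem (α.im % M).toNat (mem_range.2 (by omega))
    fun y _ hy => if_neg (by omega), if_pos (by omega)]

theorem summable_tht {f : O → ℂ} {C : ℝ} (bd : ∀ α, ‖f α‖ ≤ C) {t : ℝ} (ht : 0 < t) :
    Summable fun α : O => ‖f α * toC α * (Real.exp (-π * t * (nm α : ℝ)) : ℝ)‖ := by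
  obtain ⟨S, h, -⟩ := f6_core 0 0 ht
  refine .of_nonneg_of_le (fun _ => norm_nonneg _) (fun α => ?_)
    ((summable_norm_iff.2 h.summable).mul_left C)
  rw [mul_assoc, norm_mul, nm, toC_apply]
  simp only [add_zero, ofReal_intCast, Int.cast_add, Int.cast_sub, Int.cast_mul, Int.cast_pow]
  exact mul_le_mul_of_nonneg_right (bd α) (norm_nonneg _)

theorem poisson {M : ℕ} (hM : 0 < M) {f : O → ℂ} (per : Per M f) {t : ℝ} (ht : 0 < t) :
    tht f t = 4 / (3 * M ^ 3 * t ^ 2) * tht (FT M f) (4 / (3 * M ^ 2 * t)) := by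
  have M0 : (M : ℝ) ≠ 0 := by positivity
  have M1 : (M : ℂ) ≠ 0 := by exact_mod_cast hM.ne'
  have t1 : (t : ℂ) ≠ 0 := by exact_mod_cast ht.ne'
  have hx : (0 : ℝ) < M ^ 2 * t := by positivity
  choose S s1 s2 using fun x y : ℕ => f6_core (x / M) (y / M) hx
  have h1 := f6_split hM (F := fun α => f α * toC α * (Real.exp (-π * t * (nm α : ℝ)) : ℝ))
    fun x y => ((s1 x y).mul_left (f ⟨x, y⟩ * M)).congr_fun fun γ => by
      rw [per, nm, toC_apply, mul_assoc, mul_assoc (f _), ← mul_assoc (M : ℂ)]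
      congr 2
      · simp
        field_simp
        ring
      · congr 2
        simp
        field_simp
        ring
  have h2 := hasSum_sum (s := range M) fun (x : ℕ) _ => hasSum_sum (s := range M) fun (y : ℕ) _ =>
    (s2 x y).mul_left (f ⟨x, y⟩)
  rw [tht, tht, h1.tsum_eq, mul_assoc (3 : ℝ), (h2.congr_fun fun ξ => ?_).tsum_eq]
  · simp only [mul_sum]
    refine sum_congr rfl fun x _ => sum_congr rfl fun y _ => ?_
    push_cast
    field_simp
  · simp only [FT, sum_mul, mul_assoc]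
    refine sum_congr rfl fun x _ => sum_congr rfl fun y _ => ?_
    congr 3
    push_cast
    ring

theorem th_fe {M : ℕ} (hM : 0 < M) {f : O → ℂ} (per : Per M f) {ν : O} (hν : ν ≠ 0) {w : ℂ}
    (h : SD M f ν w) :
    ∃ l : ℝ, 0 < l ∧ ∀ t : ℝ, 0 < t → tht f (l / t) = w * t ^ 2 * tht f (l * t) := by
  have M0 : (0 : ℝ) < M := by positivity
  have n0 : (0 : ℝ) < nm ν := by
    exact_mod_cast (nm_nonneg ν).lt_of_ne' fun e => hν (nm_eq_zero.1 e)
  obtain ⟨l, l0, hl⟩ : ∃ l : ℝ, 0 < l ∧ (nm ν : ℝ) = 3 / 4 * (M ^ 2 * l ^ 2) :=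
    ⟨√(4 / 3 * nm ν) / M, by positivity, by
      rw [div_pow, Real.sq_sqrt (by positivity)]
      field_simp⟩
  refine ⟨l, l0, fun t ht => ?_⟩
  have M1 : (M : ℂ) ≠ 0 := by exact_mod_cast hM.ne'
  have t1 : (t : ℂ) ≠ 0 := by exact_mod_cast ht.ne'
  have l1 : (l : ℂ) ≠ 0 := by exact_mod_cast l0.ne'
  have e : toC (star ν) * toC ν = 3 / 4 * (M ^ 2 * l ^ 2) := by
    rw [← map_mul, mul_comm, mul_star_self, map_intCast, ← ofReal_intCast, hl]
    push_cast
    rfl
  have inj : Function.Injective fun η : O => ν * η := fun a b k => toC_inj (mul_left_cancel₀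
    ((map_ne_zero_iff toC toC_inj).2 hν) (by simpa only [map_mul] using congrArg toC k))
  rw [poisson hM per (div_pos l0 ht), tht, tht, ← inj.tsum_eq fun ξ hξ => ?_,
    ← tsum_mul_left, ← tsum_mul_left]
  · refine tsum_congr fun η => ?_
    rw [h.eq, nm_mul, Int.cast_mul, hl, map_mul, show -π * (4 / (3 * M ^ 2 * (l / t))) *
      (3 / 4 * (M ^ 2 * l ^ 2) * (nm η : ℝ)) = -π * (l * t) * nm η by field_simp]
    generalize ((Real.exp _ : ℝ) : ℂ) = K
    push_cast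
    field_simp
    linear_combination (4 * w * f η * toC η * K) * e
  · by_contra k
    exact hξ (by simp only [h.zero ξ fun ⟨η, e⟩ => k ⟨η, e.symm⟩, zero_mul])

end Pool.Agent.Lib.MP_696deb_nt.CL
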